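import Pool.Agent.H3.SHE.She

/-!
# The cells of the kinds `1, s, 1` from the leaf

`SupAt`: for almost every window with the kinds `1, s, 1` where the third coordinate does not have
its labels over the first one, there is a second package behind an earlier window in which it has.
`cell_she`: the cells `[one, thin, one]` and `[one, sta, one]` of one class from the leaf for all
classes. `LLeafA`, `LShe`, `lCellA_1t1`, `lCellA_1s1`: the same for all classes.
-/

set_option autoImplicit false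

namespace Pool.SHE3

open MeasureTheory Set Filter Topology
open Pool.Agent.H49.Ent Pool.Agent.H32.Dense Pool.STK Pool.KA Pool.KSAT Pool.K2S Pool.PB
open Pool.GEN Pool.S6C Pool.STAT Pool.CHT Pool.GRW Pool.ONE Pool.STA Pool.PKG Pool.ASM
open Pool.TOP (TopS)
open Pool.STR (SteepAt StaAt)

variable {hn : 2 ≤ 4} {S : PCl 4} {P : ℝ → ℝ → ℝ} {r : ℝ → ℝ}
  {P' : ℕ → List (Fin 4) × Fin 4 → ℝ → ℝ → ℝ} {Λ : Finset (Fin 4) → Fin 4 → ℝ → ℝ → ℝ}
  {PB : ℕ → List (Fin 4) × Fin 4 → ℝ → ℝ → ℝ}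

/-- **The supply of the second packages**: a countable family of windows `b i` and of sets `V i` such
that there is a second package behind `b i` in which the third coordinate has its labels over the
first one at (and behind) the windows of `V i`; it covers almost all windows of the kinds `1, s, 1`
with a steep target where this is not so for the first package. -/
def SupAt (H : PkT hn S P r P' Λ PB) (hTop : TopS 4) (hF : FZX (4 - 1)) (h : ℝ) : Prop :=
  ∀ o : Od 4, ∃ (b : ℕ → ℝ) (V : ℕ → Set ℝ), (∀ i, (V i).Nonempty →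
    ∃ (Sb : PCl 4) (Pb : ℝ → ℝ → ℝ) (rb : ℝ → ℝ) (Pb' : ℕ → List (Fin 4) × Fin 4 → ℝ → ℝ → ℝ)
      (Λb : Finset (Fin 4) → Fin 4 → ℝ → ℝ → ℝ) (PBb : ℕ → List (Fin 4) × Fin 4 → ℝ → ℝ → ℝ),
      PkT hn Sb Pb rb Pb' Λb PBb ∧ ShN hn o (b i) P r P' Λ Pb rb Pb' Λb ∧
      ∀ w ∈ V i, b i < w → w < 1 → ∃ ρ < 1, ∀ w' : ℝ, w < w' → w' < 1 →
        zs (b i) (LvL hn P P' o 2 w w) ≤
          Λb ((Finset.range 1).image (cc hn o.1.1)) (cc hn o.1.1 2) (zs (b i) w') (zs (b i) ρ)) ∧
    ∀ᵐ g : ℝ, RwH H hTop hF h o g → (∀ l < 3, ThS hn P P' PB o l g) →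
      KdAt hn P P' PB o 0 g .one → (KdAt hn P P' PB o 1 g .thin ∨ KdAt hn P P' PB o 1 g .sta) →
      KdAt hn P P' PB o 2 g .one → 1 < deriv (fun a => LvL hn P P' o 1 a a) g →
      2 < deriv (fun a => LvL hn P P' o 3 a a) g → SteepAt 2 (LvT hn PB o 3) g →
      ¬ (∃ ρ < 1, LvL hn P P' o 2 g g ≤
        Λ ((Finset.range 1).image (cc hn o.1.1)) (cc hn o.1.1 2) g ρ) →
      ∃ i, g ∈ V i ∧ b i < g

/-- **The cells** of the kinds `1, s, 1` of one class. -/
theorem cell_she {h : ℝ} (hh : 0 ≤ h) (hL : LeafA h) (H : PkT hn S P r P' Λ PB) (hTop : TopS 4)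
    (hF : FZX (4 - 1)) (hS : SupAt H hTop hF h) {k : Kd} (hk : k = .thin ∨ k = .sta) :
    Cell H hTop hF h [.one, k, .one] := by
  intro o
  obtain ⟨b, V, hV, hcov⟩ := hS o
  have h1 : ∀ᵐ g : ℝ, ∀ i, g ∈ V i → b i < g → RwH H hTop hF h o g →
      1 < deriv (fun a => LvL hn P P' o 1 a a) g → deriv (fun a => LvL hn P P' o 2 a a) g = 1 →
      2 < deriv (fun a => LvL hn P P' o 3 a a) g → SteepAt 2 (LvT hn PB o 3) g →
      StaAt (LvL hn P P' o 3) g := by
    refine ae_all_iff.2 fun i => ?_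
    by_cases hi : (V i).Nonempty
    · obtain ⟨Sb, Pb, rb, Pb', Λb, PBb, Hb, N, hd⟩ := hV i hi
      exact she_pk hh hL N H Hb hTop hF hd
    · exact Eventually.of_forall fun g hg => absurd ⟨g, hg⟩ hi
  filter_upwards [h1, hcov, hL hn hTop hF S P r P' Λ PB H o] with g a1 a2 a3 R hth hkd hs hst
  have k0 : KdAt hn P P' PB o 0 g .one := hkd 0 (by norm_num)
  have k1 : KdAt hn P P' PB o 1 g k := hkd 1 (by norm_num)
  have k2 : KdAt hn P P' PB o 2 g .one := hkd 2 (by norm_num)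
  have k1' : KdAt hn P P' PB o 1 g .thin ∨ KdAt hn P P' PB o 1 g .sta := by
    rcases hk with h | h
    · rw [h] at k1
      exact Or.inl k1
    · rw [h] at k1
      exact Or.inr k1
  have hs1 : 1 < deriv (fun a => LvL hn P P' o 1 a a) g := by
    rcases k1' with h | h
    · exact h.1
    · have h5 : 2 ≤ deriv (fun a => LvL hn P P' o 1 a a) g := h.1
      linarith
  have hth' : ∀ l < 3, ThS hn P P' PB o l g := hth
  have hs' : 2 < deriv (fun a => LvL hn P P' o 3 a a) g := hs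
  have hst' : SteepAt 2 (LvT hn PB o 3) g := hst
  show StaAt (LvL hn P P' o 3) g
  by_cases h2a : ∃ ρ < 1, LvL hn P P' o 2 g g ≤
      Λ ((Finset.range 1).image (cc hn o.1.1)) (cc hn o.1.1 2) g ρ
  · exact a3 R hth' k0 k1' k2 hs' hst' h2a
  · obtain ⟨i, hi, hbi⟩ := a2 R hth' k0 k1' k2 hs1 hs' hst' h2a
    exact a1 i hi hbi R hs1 k2 hs' hst'

/-- **The leaf**, all classes. -/
def LLeafA : Prop := (∀ k, 2 ≤ k → k < 4 → Ext0 k) →
  Tol fun η => AllC 4 η fun H hTop hF h => LeafAt H hTop hF h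

/-- **The supply of the second packages**, all classes. -/
def LShe : Prop := (∀ k, 2 ≤ k → k < 4 → Ext0 k) →
  Tol fun η => AllC 4 η fun H hTop hF h => SupAt H hTop hF h

theorem lCellA_1x1 (hA : LLeafA) (hS : LShe) {k : Kd} (hk : k = .thin ∨ k = .sta) :
    LCellA 4 [.one, k, .one] := fun hi => by
  refine (((hA hi).and (hS hi)).and (Tol.le (1 / 2) (by norm_num))).mono fun η hη => ?_
  obtain ⟨⟨h1, h2⟩, h3⟩ := hη
  intro hn hZ hF hTop D hD hD1 hE S P r P' Λ PB H
  have h4 := (h3 D hD).2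
  exact cell_she (mul_nonneg (by linarith) hD.le)
    (fun hn' hTop' hF' S P r P' Λ PB H => h1 hn' hZ hF' hTop' D hD hD1 hE S P r P' Λ PB H)
    H hTop hF (h2 hn hZ hF hTop D hD hD1 hE S P r P' Λ PB H) hk

/-- **The cell** `[one, thin, one]`, from the leaf and the supply. -/
theorem lCellA_1t1 (hA : LLeafA) (hS : LShe) : LCellA 4 [.one, .thin, .one] :=
  lCellA_1x1 hA hS (Or.inl rfl)

/-- **The cell** `[one, sta, one]`, from the leaf and the supply. -/
theorem lCellA_1s1 (hA : LLeafA) (hS : LShe) : LCellA 4 [.one, .sta, .one] :=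
  lCellA_1x1 hA hS (Or.inr rfl)

end Pool.SHE3
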