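import Pool.Agent.H3.SWP.Swg
import Pool.Agent.H66.D2.Two
import Pool.Agent.H3.D2G.Win

/-!
# The good windows and the levels of a class behind a window

`zs b`: the change of scale behind the window `b`. `ShN0`: the numbers of a second package behind
`b`, for the first places of an order with three places: the numbers of the closed labels are the
rescaled ones, up to small changes of the windows, the rate has at most the rescaled increments; the
number of the third coordinate over the first place can be larger. `ShN1`: also the thresholds of the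
target on the diagonal. `ShN`: also off the diagonal. `ShN0.vs`, `ShN0.vgr`, `ShN0.ctr`: the numbers
of the list, and the order is greedy and continuous, at almost every good window of the first
package. `ShN1.gs`: almost every good window of the first package behind `b` is a good window of the
second one, for the same order. `ShN1.lv`: the levels there. `ShN1.der`: the slopes.
-/

set_option autoImplicit false

namespace Pool.SHE3

open MeasureTheory Set Filter Topology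
open Pool.Agent.H49.Ent Pool.Agent.H32.Dense Pool.STK Pool.KA Pool.KSAT Pool.K2S Pool.PB
open Pool.GEN Pool.S6C Pool.STAT Pool.CHT Pool.GRW Pool.ONE Pool.STA Pool.PKG
open Pool.LEV (Law)
open Pool.TOP (TopS)
open Pool.OWN72 (epo cc_epo vs_img vn_img vse_one)
open Pool.STR (StaAt)

/-- **The change of scale** behind the window `b`. -/
noncomputable def zs (b x : ℝ) : ℝ := (x - b) / (1 - b)

section

variable {b : ℝ}

theorem zs_lt (h : b < 1) {x y : ℝ} : zs b x < zs b y ↔ x < y := by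
  unfold zs
  rw [div_lt_div_iff_of_pos_right (by linarith)]
  constructor <;> intro h1 <;> linarith

theorem zs_le (h : b < 1) {x y : ℝ} : zs b x ≤ zs b y ↔ x ≤ y := by
  unfold zs
  rw [div_le_div_iff_of_pos_right (by linarith)]
  constructor <;> intro h1 <;> linarith

theorem zs_one (h : b < 1) : zs b 1 = 1 := by
  unfold zs
  exact div_self (by linarith)

theorem zs_self (b : ℝ) : zs b b = 0 := by
  unfold zs
  rw [sub_self, zero_div]

theorem zs_pos (h : b < 1) {x : ℝ} : 0 < zs b x ↔ b < x := by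
  rw [← zs_self b, zs_lt h]

theorem zs_lt_one (h : b < 1) {x : ℝ} : zs b x < 1 ↔ x < 1 := by
  rw [← zs_one h, zs_lt h, zs_one h]

theorem zs_le_one (h : b < 1) {x : ℝ} : zs b x ≤ 1 ↔ x ≤ 1 := by
  rw [← zs_one h, zs_le h, zs_one h]

theorem zs_sub (b x y : ℝ) : zs b x - zs b y = (x - y) / (1 - b) := by
  unfold zs
  rw [← sub_div]
  congr 1
  ring

/-- The inverse. -/
theorem zs_inv (h : b < 1) (y : ℝ) : zs b (b + (1 - b) * y) = y := by
  unfold zs
  have h1 : 1 - b ≠ 0 := by linarith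
  field_simp
  ring

theorem zs_hasDeriv (b x : ℝ) : HasDerivAt (zs b) (1 - b)⁻¹ x := by
  have h1 : HasDerivAt (fun x => (x - b) / (1 - b)) (1 / (1 - b)) x :=
    ((hasDerivAt_id x).sub_const b).div_const (1 - b)
  rwa [one_div] at h1

theorem zs_mono (h : b < 1) : Monotone (zs b) := fun _ _ hxy => (zs_le h).2 hxy

/-- Null sets. -/
theorem ae_zs (h : b < 1) {p : ℝ → Prop} (hp : ∀ᵐ x : ℝ, p x) : ∀ᵐ g : ℝ, p (zs b g) := by
  filter_upwards [Pool.STR.ae_notMem_of_null (zs_mono h) (ae_iff.1 hp)] with g hg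
  have h1 := hg (zs_hasDeriv b g).differentiableAt (by
    rw [(zs_hasDeriv b g).deriv]
    exact inv_pos.2 (by linarith))
  by_contra hcon
  exact h1 hcon

end

/-- Points of a set on both sides. -/
theorem two_acc (E : Set ℝ) : ∀ᵐ g : ℝ, g ∈ E → ∀ δ : ℝ, 0 < δ →
    (∃ x ∈ E, g < x ∧ x < g + δ) ∧ ∃ x ∈ E, g - δ < x ∧ x < g := by
  filter_upwards [pt_near E] with g h1 hg δ hδ
  obtain ⟨q₁, hq₁, h3⟩ := h1 hg 1 (1 / 2) one_pos (by norm_num)
  obtain ⟨q, hq⟩ : ∃ q, q = min q₁ δ / 2 := ⟨_, rfl⟩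
  have hm : 0 < min q₁ δ := lt_min hq₁ hδ
  have hq0 : 0 < q := by rw [hq]; linarith
  have hq1 : q < q₁ := by rw [hq]; linarith [min_le_left q₁ δ]
  have hq2 : q ≤ δ / 2 := by rw [hq]; linarith [min_le_right q₁ δ]
  constructor
  · obtain ⟨x, hx, h4, h5⟩ := h3 q (g + q) hq0 hq1 (by
      rw [add_sub_cancel_left, abs_of_pos hq0, one_mul])
    exact ⟨x, hx, by linarith, by linarith⟩
  · obtain ⟨x, hx, h4, h5⟩ := h3 q (g - q) hq0 hq1 (by
      rw [sub_sub_cancel_left, abs_neg, abs_of_pos hq0, one_mul])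
    exact ⟨x, hx, by linarith, by linarith⟩

/-- A value between the values of a continuous function on the two sides. -/
theorem eq_of_sides {f : ℝ → ℝ} {x g : ℝ} (hf : ContinuousAt f g) {δ : ℝ} (hδ : 0 < δ)
    (h1 : ∀ w, g - δ < w → w < g → f w ≤ x) (h2 : ∀ w, g < w → w < g + δ → x ≤ f w) :
    x = f g := by
  refine le_antisymm ?_ ?_
  · refine ge_of_tendsto (hf.tendsto.mono_left (nhdsWithin_le_nhds (s := Set.Ioi g))) ?_
    filter_upwards [Ioo_mem_nhdsGT (show g < g + δ by linarith)] with w hw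
    exact h2 w hw.1 hw.2
  · refine le_of_tendsto (hf.tendsto.mono_left (nhdsWithin_le_nhds (s := Set.Iio g))) ?_
    filter_upwards [Ioo_mem_nhdsLT (show g - δ < g by linarith)] with w hw
    exact h1 w hw.1 hw.2

/-- A bound by the values of a continuous function on the left side. -/
theorem le_of_left {f : ℝ → ℝ} {x g : ℝ} (hf : ContinuousAt f g) {δ : ℝ} (hδ : 0 < δ)
    (h1 : ∀ w, g - δ < w → w < g → f w ≤ x) : f g ≤ x := by
  refine le_of_tendsto (hf.tendsto.mono_left (nhdsWithin_le_nhds (s := Set.Iio g))) ?_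
  filter_upwards [Ioo_mem_nhdsLT (show g - δ < g by linarith)] with w hw
  exact h1 w hw.1 hw.2

variable {hn : 2 ≤ 4} {S Sb : PCl 4} {P Pb : ℝ → ℝ → ℝ} {r rb : ℝ → ℝ}
  {P' Pb' : ℕ → List (Fin 4) × Fin 4 → ℝ → ℝ → ℝ} {Λ Λb : Finset (Fin 4) → Fin 4 → ℝ → ℝ → ℝ}
  {PB PBb : ℕ → List (Fin 4) × Fin 4 → ℝ → ℝ → ℝ}

/-- The thresholds of the target on the diagonal near a window. -/
def DiaW (b : ℝ) (P Pb : ℝ → ℝ → ℝ) (g : ℝ) : Prop :=
  ∃ δ : ℝ, 0 < δ ∧ ∀ a a' : ℝ, g - δ < a → a < a' → a' < g + δ →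
    zs b (P a a) ≤ Pb (zs b a') (zs b a') ∧ Pb (zs b a) (zs b a) ≤ zs b (P a' a')

/-- The thresholds of the target off the diagonal near a window: the upper bound. -/
def OffW (b : ℝ) (P Pb : ℝ → ℝ → ℝ) (g : ℝ) : Prop :=
  ∃ δ : ℝ, 0 < δ ∧ ∀ a a' w w' : ℝ, g - δ < w → w < w' → w' < a → a < a' → a' < g + δ →
    zs b (P a w) ≤ Pb (zs b a') (zs b w')

/-- The lower bound. -/
def OffS (b : ℝ) (P Pb : ℝ → ℝ → ℝ) (g : ℝ) : Prop :=
  ∃ δ : ℝ, 0 < δ ∧ ∀ a a' w w' : ℝ, g - δ < w → w < w' → w' < a → a < a' → a' < g + δ →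
    Pb (zs b a) (zs b w) ≤ zs b (P a' w')

/-- **The numbers of the closed labels and the rate of the second package** behind the window `b`,
for the order `o`, with the coordinates `c 0, c 1, c 2` of the order. The comparisons are needed only
between different windows. -/
structure ShN0 (hn : 2 ≤ 4) (o : Od 4) (b : ℝ) (r : ℝ → ℝ)
    (Λ : Finset (Fin 4) → Fin 4 → ℝ → ℝ → ℝ) (rb : ℝ → ℝ)
    (Λb : Finset (Fin 4) → Fin 4 → ℝ → ℝ → ℝ) : Prop where
  b0 : 0 < b
  b1 : b < 1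
  /-- The rate. -/
  hr : ∀ x y : ℝ, b ≤ x → x ≤ y → y ≤ 1 → rb (zs b y) - rb (zs b x) ≤ (r y - r x) / (1 - b)
  /-- The numbers of the second coordinate over the first one. -/
  h1 : ∀ w w' ρ ρ' : ℝ, b < w → w < w' → w' < 1 → w ≤ ρ → ρ < ρ' → ρ' < 1 →
    zs b (Λ ((Finset.range 1).image (cc hn o.1.1)) (cc hn o.1.1 1) w ρ) ≤
        Λb ((Finset.range 1).image (cc hn o.1.1)) (cc hn o.1.1 1) (zs b w') (zs b ρ') ∧
      Λb ((Finset.range 1).image (cc hn o.1.1)) (cc hn o.1.1 1) (zs b w) (zs b ρ) ≤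
        zs b (Λ ((Finset.range 1).image (cc hn o.1.1)) (cc hn o.1.1 1) w' ρ')
  /-- The numbers of the third coordinate over the first two. -/
  h2 : ∀ w w' ρ ρ' : ℝ, b < w → w < w' → w' < 1 → w ≤ ρ → ρ < ρ' → ρ' < 1 →
    zs b (Λ ((Finset.range 2).image (cc hn o.1.1)) (cc hn o.1.1 2) w ρ) ≤
        Λb ((Finset.range 2).image (cc hn o.1.1)) (cc hn o.1.1 2) (zs b w') (zs b ρ') ∧
      Λb ((Finset.range 2).image (cc hn o.1.1)) (cc hn o.1.1 2) (zs b w) (zs b ρ) ≤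
        zs b (Λ ((Finset.range 2).image (cc hn o.1.1)) (cc hn o.1.1 2) w' ρ')
  /-- The number of the third coordinate over the first one: it does not become smaller than the
  one of the second coordinate. -/
  h3 : ∀ w w' : ℝ, b < w → w < w' → w' < 1 →
    zs b (min (Λ ((Finset.range 1).image (cc hn o.1.1)) (cc hn o.1.1 1) w w)
      (Λ ((Finset.range 1).image (cc hn o.1.1)) (cc hn o.1.1 2) w w)) ≤
      Λb ((Finset.range 1).image (cc hn o.1.1)) (cc hn o.1.1 2) (zs b w') (zs b w')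

/-- **The numbers of the second package**: also the thresholds of the target on the diagonal near
the good windows. -/
structure ShN1 (hn : 2 ≤ 4) (o : Od 4) (b : ℝ) (P : ℝ → ℝ → ℝ) (r : ℝ → ℝ)
    (P' : ℕ → List (Fin 4) × Fin 4 → ℝ → ℝ → ℝ) (Λ : Finset (Fin 4) → Fin 4 → ℝ → ℝ → ℝ)
    (Pb : ℝ → ℝ → ℝ) (rb : ℝ → ℝ) (Λb : Finset (Fin 4) → Fin 4 → ℝ → ℝ → ℝ) : Prop
    extends ShN0 hn o b r Λ rb Λb where
  hP : ∀ᵐ g : ℝ, b < g → g ∈ Gs P r P' Λ o → DiaW b P Pb g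

/-- **The numbers of the second package**: also the thresholds of the target off the diagonal near
the windows which are good for both packages; `hS`: a static window of the second package is a
static window of the first one. -/
structure ShN (hn : 2 ≤ 4) (o : Od 4) (b : ℝ) (P : ℝ → ℝ → ℝ) (r : ℝ → ℝ)
    (P' : ℕ → List (Fin 4) × Fin 4 → ℝ → ℝ → ℝ) (Λ : Finset (Fin 4) → Fin 4 → ℝ → ℝ → ℝ)
    (Pb : ℝ → ℝ → ℝ) (rb : ℝ → ℝ) (Pb' : ℕ → List (Fin 4) × Fin 4 → ℝ → ℝ → ℝ)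
    (Λb : Finset (Fin 4) → Fin 4 → ℝ → ℝ → ℝ) : Prop
    extends ShN1 hn o b P r P' Λ Pb rb Λb where
  hO : ∀ᵐ g : ℝ, b < g → g ∈ Gs P r P' Λ o → zs b g ∈ Gs Pb rb Pb' Λb o → OffW b P Pb g
  hS : ∀ᵐ g : ℝ, b < g → g ∈ Gs P r P' Λ o → zs b g ∈ Gs Pb rb Pb' Λb o →
    StaAt Pb (zs b g) → StaAt P g

variable {o : Od 4} {b : ℝ}

/-- The numbers of the second place grow at the good windows. -/
theorem vs_two_lt (H : PkT hn S P r P' Λ PB) (hTop : TopS 4) (hF : FZX (4 - 1)) (o : Od 4) :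
    ∀ᵐ g : ℝ, g ∈ Gs P r P' Λ o →
      (∀ w, w < g → Pool.GEN.vs Λ (epo hn o) w 2 < Pool.GEN.vs Λ (epo hn o) g 2) ∧
      ∀ w, g < w → Pool.GEN.vs Λ (epo hn o) g 2 < Pool.GEN.vs Λ (epo hn o) w 2 := by
  have key : ∀ x y : ℝ, x ∈ Gs P r P' Λ o → y ∈ Gs P r P' Λ o → x < y →
      Pool.GEN.vs Λ (epo hn o) x 2 < Pool.GEN.vs Λ (epo hn o) y 2 := by
    intro x y hx hy hxy
    have x0 : 0 < x := hx.1.1.1
    have y1 : y < 1 := hy.1.1.2.1
    have e1 := gs_lvl H.toPk hTop hF hx (l := 1) (by norm_num)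
    have e2 := gs_lvl H.toPk hTop hF hy (l := 1) (by norm_num)
    have h1 := lev_lt' H.toPk hTop hF hx (l := 1) (by norm_num)
    have hL := H.lawL o 1
    have h2 := hL.slope x x (y - x) x0.le le_rfl (by linarith) (by linarith)
    rw [show x + (y - x) = y by ring] at h2
    have h3 := hL.mono_w y x y x0.le hxy.le le_rfl y1.le
    show Pool.GEN.vs Λ (epo hn o) x (1 + 1) < Pool.GEN.vs Λ (epo hn o) y (1 + 1)
    rw [← e1, ← e2]
    rcases min_le_iff.1 h2 with h4 | h4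
    · linarith
    · linarith
  have hm := vs_mono H.lam (epo hn o) 2
  filter_upwards [two_acc (Gs P r P' Λ o)] with g h1 hg
  constructor
  · intro w hw
    obtain ⟨x, hx, h2, h3⟩ := (h1 hg (g - w) (by linarith)).2
    exact (hm (show w ≤ x by linarith)).trans_lt (key x g hx hg h3)
  · intro w hw
    obtain ⟨x, hx, h2, h3⟩ := (h1 hg (w - g) (by linarith)).1
    exact (key g x hg hx h2).trans_le (hm (show x ≤ w by linarith))

/-- The thresholds of the target at the good windows. -/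
theorem ShN1.hPg (N : ShN1 hn o b P r P' Λ Pb rb Λb) {g : ℝ} (hbg : b < g)
    (hg : g ∈ Gs P r P' Λ o) (hD : DiaW b P Pb g) : Pb (zs b g) (zs b g) = zs b (P g g) := by
  have hb1 := N.b1
  have g1 : g < 1 := hg.1.1.2.1
  obtain ⟨δ, hδ, hD⟩ := hD
  have hcP : ContinuousAt (dgP P) g := hg.2.2
  have hc : ContinuousAt (fun x => zs b (dgP P x)) g :=
    (zs_hasDeriv b _).continuousAt.comp hcP
  have h1 : dgP P g = P g g := dgP_eq P (by linarith [N.b0]) g1.le
  have h2 := eq_of_sides (f := fun x => zs b (dgP P x)) (x := Pb (zs b g) (zs b g)) hc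
    (δ := min δ (min (g - b) (1 - g))) (lt_min hδ (lt_min (by linarith) (by linarith)))
    (fun w hw hwg => by
      have k0 := min_le_left δ (min (g - b) (1 - g))
      have k1 := (min_le_right δ (min (g - b) (1 - g))).trans (min_le_left _ _)
      show zs b (dgP P w) ≤ _
      rw [dgP_eq P (by linarith [N.b0]) (by linarith)]
      exact (hD w g (by linarith) hwg (by linarith)).1) (fun w hw hwg => by
      have k0 := min_le_left δ (min (g - b) (1 - g))
      have k1 := (min_le_right δ (min (g - b) (1 - g))).trans (min_le_right _ _)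
      show _ ≤ zs b (dgP P w)
      rw [dgP_eq P (by linarith [N.b0]) (by linarith)]
      exact (hD g w (by linarith) hw (by linarith)).2)
  rw [h2]
  show zs b (dgP P g) = zs b (P g g)
  rw [h1]

/-- The numbers of the list behind `b`. -/
theorem ShN0.vs (N : ShN0 hn o b r Λ rb Λb) (H : PkT hn S P r P' Λ PB)
    (Hb : PkT hn Sb Pb rb Pb' Λb PBb) (hTop : TopS 4) (hF : FZX (4 - 1)) :
    ∀ᵐ g : ℝ, b < g → g ∈ Gs P r P' Λ o → ∀ l ≤ 3,
      Pool.GEN.vs Λb (epo hn o) (zs b g) l = zs b (Pool.GEN.vs Λ (epo hn o) g l) := by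
  have hb0 := N.b0
  have hb1 := N.b1
  filter_upwards [vs_two_lt H hTop hF o] with g hst hbg hg
  obtain ⟨s1, s2⟩ := hst hg
  have g1 : g < 1 := hg.1.1.2.1
  have g0 : 0 < g := hg.1.1.1
  have hct := hg.1.1.2.2.2
  have z1 : zs b g < 1 := (zs_lt_one hb1).2 g1
  have hcz : ∀ x : ℝ, ContinuousAt (zs b) x := fun x => (zs_hasDeriv b x).continuousAt
  have hd : 0 < min (g - b) (1 - g) := lt_min (by linarith) (by linarith)
  have k1 := min_le_left (g - b) (1 - g)
  have k2 := min_le_right (g - b) (1 - g)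
  have e0 : Pool.GEN.vs Λb (epo hn o) (zs b g) 0 = zs b (Pool.GEN.vs Λ (epo hn o) g 0) := rfl
  have e1 : Pool.GEN.vs Λb (epo hn o) (zs b g) 1 = zs b (Pool.GEN.vs Λ (epo hn o) g 1) := by
    rw [vse_one Hb.toPk o ((zs_pos hb1).2 hbg).le z1, vse_one H.toPk o g0.le g1]
  -- the second place
  have f2 : ∀ w, 0 < w → w < 1 → Pool.GEN.vs Λ (epo hn o) w 2 =
      Λ ((Finset.range 1).image (cc hn o.1.1)) (cc hn o.1.1 1) w w := by
    intro w hw0 hw1
    have k2 := vs_img (Λ := Λ) (hn := hn) o w (l := 1) (by norm_num)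
    rw [show (1 : ℕ) + 1 = 2 from rfl, vse_one H.toPk o hw0.le hw1] at k2
    exact k2
  have f2b : ∀ w, b < w → w < 1 → Pool.GEN.vs Λb (epo hn o) (zs b w) 2 =
      Λb ((Finset.range 1).image (cc hn o.1.1)) (cc hn o.1.1 1) (zs b w) (zs b w) := by
    intro w hw0 hw1
    have k2 := vs_img (Λ := Λb) (hn := hn) o (zs b w) (l := 1) (by norm_num)
    rw [show (1 : ℕ) + 1 = 2 from rfl, vse_one Hb.toPk o ((zs_pos hb1).2 hw0).le
      ((zs_lt_one hb1).2 hw1)] at k2
    exact k2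
  have c2 : ContinuousAt (fun w => Pool.GEN.vs Λ (epo hn o) w 2) g := by
    have h1 : (fun w => Pool.GEN.vs Λ (epo hn o) w 2) =
        Pool.GEN.vn Λ (epo hn o) ⟨1, by norm_num⟩ (epo hn o ⟨1, by norm_num⟩) := by
      funext w
      exact vs_succ Λ (epo hn o) w ⟨1, by norm_num⟩
    rw [h1]
    exact hct _ _
  have c3 : ContinuousAt (fun w => Pool.GEN.vs Λ (epo hn o) w 3) g := by
    have h1 : (fun w => Pool.GEN.vs Λ (epo hn o) w 3) =
        Pool.GEN.vn Λ (epo hn o) ⟨2, by norm_num⟩ (epo hn o ⟨2, by norm_num⟩) := by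
      funext w
      exact vs_succ Λ (epo hn o) w ⟨2, by norm_num⟩
    rw [h1]
    exact hct _ _
  have e2 : Pool.GEN.vs Λb (epo hn o) (zs b g) 2 = zs b (Pool.GEN.vs Λ (epo hn o) g 2) := by
    refine eq_of_sides (f := fun w => zs b (Pool.GEN.vs Λ (epo hn o) w 2))
      (ContinuousAt.comp (hcz _) c2) hd (fun w hw hwg => ?_) (fun w hw hwg => ?_)
    · show zs b (Pool.GEN.vs Λ (epo hn o) w 2) ≤ _
      rw [f2 w (by linarith) (by linarith), f2b g hbg g1]
      exact (N.h1 w g w g (by linarith) hwg g1 le_rfl hwg g1).1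
    · show _ ≤ zs b (Pool.GEN.vs Λ (epo hn o) w 2)
      rw [f2 w (by linarith) (by linarith), f2b g hbg g1]
      exact (N.h1 g w g w hbg hw (by linarith) le_rfl hw (by linarith)).2
  -- the third place
  have lt2 : Pool.GEN.vs Λ (epo hn o) g 2 < 1 := by
    have h1 := lev_lt' H.toPk hTop hF hg (l := 1) (by norm_num)
    rwa [gs_lvl H.toPk hTop hF hg (l := 1) (by norm_num)] at h1
  obtain ⟨δ₁, hδ₁, h3⟩ := Metric.eventually_nhds_iff.1 (c2.eventually (gt_mem_nhds lt2))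
  have f3 : ∀ w, Pool.GEN.vs Λ (epo hn o) w 3 =
      Λ ((Finset.range 2).image (cc hn o.1.1)) (cc hn o.1.1 2) w (Pool.GEN.vs Λ (epo hn o) w 2) := fun w =>
    vs_img (Λ := Λ) (hn := hn) o w (l := 2) (by norm_num)
  have f3b : Pool.GEN.vs Λb (epo hn o) (zs b g) 3 =
      Λb ((Finset.range 2).image (cc hn o.1.1)) (cc hn o.1.1 2) (zs b g) (zs b (Pool.GEN.vs Λ (epo hn o) g 2)) := by
    rw [← e2]
    exact vs_img (Λ := Λb) (hn := hn) o (zs b g) (l := 2) (by norm_num)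
  have e3 : Pool.GEN.vs Λb (epo hn o) (zs b g) 3 = zs b (Pool.GEN.vs Λ (epo hn o) g 3) := by
    refine eq_of_sides (f := fun w => zs b (Pool.GEN.vs Λ (epo hn o) w 3))
      (ContinuousAt.comp (hcz _) c3) (δ := min δ₁ (min (g - b) (1 - g))) (lt_min hδ₁ hd)
      (fun w hw hwg => ?_) (fun w hw hwg => ?_)
    · have k3 := min_le_right δ₁ (min (g - b) (1 - g))
      show zs b (Pool.GEN.vs Λ (epo hn o) w 3) ≤ _
      rw [f3, f3b]
      exact (N.h2 w g _ _ (by linarith) hwg g1 (le_vs H.lam _ (by linarith) 2) (s1 w hwg)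
        lt2).1
    · have k3 := min_le_right δ₁ (min (g - b) (1 - g))
      have k4 := min_le_left δ₁ (min (g - b) (1 - g))
      show _ ≤ zs b (Pool.GEN.vs Λ (epo hn o) w 3)
      rw [f3, f3b]
      refine (N.h2 g w _ _ hbg hw (by linarith) (le_vs H.lam _ g1.le 2) (s2 w hw)
        (h3 ?_)).2
      rw [Real.dist_eq, abs_lt]
      constructor <;> linarith
  intro l hl
  interval_cases l
  · exact e0
  · exact e1
  · exact e2
  · exact e3

/-- The order is greedy behind `b`. -/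
theorem ShN0.vgr (N : ShN0 hn o b r Λ rb Λb) (H : PkT hn S P r P' Λ PB)
    (Hb : PkT hn Sb Pb rb Pb' Λb PBb) {w : ℝ} (hw : b < w)
    (hg : w ∈ Gs P r P' Λ o)
    (hv : ∀ l ≤ 3, Pool.GEN.vs Λb (epo hn o) (zs b w) l = zs b (Pool.GEN.vs Λ (epo hn o) w l)) :
    Vgr Λb (epo hn o) (zs b w) := by
  have hb0 := N.b0
  have hb1 := N.b1
  have hw0 : 0 < w := hb0.trans hw
  have hw1 : w < 1 := hg.1.1.2.1
  have hgr := hg.1.1.2.2.1
  have hct := hg.1.1.2.2.2
  have hz1 : zs b w < 1 := (zs_lt_one hb1).2 hw1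
  intro j k hjk
  rcases hjk.lt_or_eq with h | h
  swap
  · rw [← h]
    exact (vs_succ Λb (epo hn o) (zs b w) j).le
  obtain ⟨j, hj⟩ := j
  obtain ⟨k, hk⟩ := k
  have h' : j < k := h
  have hk3 : k < 3 := hk
  obtain rfl | rfl : j = 0 ∨ j = 1 := by omega
  · have e1 := hv 1 (by norm_num)
    rw [vse_one H.toPk o hw0.le hw1] at e1
    show Pool.GEN.vs Λb (epo hn o) (zs b w) 1 ≤ _
    rw [e1]
    exact Hb.lam.low _ _ _ _ hz1.le
  · obtain rfl : k = 2 := by omega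
    have e2 := hv 2 (by norm_num)
    show Pool.GEN.vs Λb (epo hn o) (zs b w) 2 ≤ _
    rw [e2, vn_img (Λ := Λb) (hn := hn) o (zs b w) (l := 1) (k := 2) (by norm_num) (by norm_num),
      vse_one Hb.toPk o ((zs_pos hb1).2 hw).le hz1]
    have q1 : ∀ k, (hk : k < 3) → ContinuousAt
        (Pool.GEN.vn Λ (epo hn o) ⟨1, by norm_num⟩ (epo hn o ⟨k, hk⟩)) w := fun k hk => hct _ _
    have hc : ContinuousAt (fun x => zs b (min
        (Pool.GEN.vn Λ (epo hn o) ⟨1, by norm_num⟩ (epo hn o ⟨1, by norm_num⟩) x)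
        (Pool.GEN.vn Λ (epo hn o) ⟨1, by norm_num⟩ (epo hn o ⟨2, by norm_num⟩) x))) w :=
      ContinuousAt.comp (zs_hasDeriv b _).continuousAt ((q1 1 _).min (q1 2 _))
    have ev : ∀ x k, (hk : k < 3) → 0 < x → x < 1 →
        Pool.GEN.vn Λ (epo hn o) ⟨1, by norm_num⟩ (epo hn o ⟨k, hk⟩) x =
        Λ ((Finset.range 1).image (cc hn o.1.1)) (cc hn o.1.1 k) x x := by
      intro x k hk hx0 hx1
      have k1 := vn_img (Λ := Λ) (hn := hn) o x (l := 1) (k := k) (by norm_num) hk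
      rwa [vse_one H.toPk o hx0.le hx1] at k1
    have h5 := le_of_left hc (x := Λb ((Finset.range 1).image (cc hn o.1.1)) (cc hn o.1.1 2) (zs b w) (zs b w))
      (δ := w - b) (by linarith) fun x hx hxw => by
        simp only [ev x 1 (by norm_num) (by linarith) (by linarith),
          ev x 2 (by norm_num) (by linarith) (by linarith)]
        exact N.h3 x w (by linarith) hxw hw1
    refine le_trans ((zs_le hb1).2 (le_min ?_ ?_)) h5
    · exact (vs_succ Λ (epo hn o) w ⟨1, by norm_num⟩).le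
    · exact hgr ⟨1, by norm_num⟩ ⟨2, by norm_num⟩ (by
        rw [Fin.mk_le_mk]
        norm_num)

/-- The order is greedy and continuous behind `b`. -/
theorem ShN0.ctr (N : ShN0 hn o b r Λ rb Λb) (H : PkT hn S P r P' Λ PB)
    (Hb : PkT hn Sb Pb rb Pb' Λb PBb) (hTop : TopS 4) (hF : FZX (4 - 1)) :
    ∀ᵐ g : ℝ, b < g → g ∈ Gs P r P' Λ o → 0 < zs b g ∧ zs b g < 1 ∧
      Vgr Λb (epo hn o) (zs b g) ∧ Vct Λb (epo hn o) (zs b g) := by
  have hb1 := N.b1
  have h1 : ∀ᵐ w : ℝ, w ∉ {w | ¬ Vct Λb (epo hn o) w} :=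
    Set.Countable.ae_notMem (vct_ae Hb.lam _) _
  filter_upwards [ae_zs hb1 h1, N.vs H Hb hTop hF] with g hg hv hbg hG
  rw [not_not] at hg
  exact ⟨(zs_pos hb1).2 hbg, (zs_lt_one hb1).2 hG.1.1.2.1, N.vgr H Hb hbg hG (hv hbg hG), hg⟩

/-- **The good windows** behind `b`. -/
theorem ShN1.gs (N : ShN1 hn o b P r P' Λ Pb rb Λb) (H : PkT hn S P r P' Λ PB)
    (Hb : PkT hn Sb Pb rb Pb' Λb PBb) (hTop : TopS 4) (hF : FZX (4 - 1)) :
    ∀ᵐ g : ℝ, b < g → g ∈ Gs P r P' Λ o → zs b g ∈ Gs Pb rb Pb' Λb o := by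
  have hb0 := N.b0
  have hb1 := N.b1
  have h1 : ∀ᵐ w : ℝ, w ∉ {w | ¬ ∀ l, ContinuousAt
      (dg (Pb' o.2) l) w} ∪ {w | ¬ ContinuousAt (dgP Pb) w} := by
    refine Set.Countable.ae_notMem ?_ _
    exact (dg_ae (Hb.cht o.2)).union (dgP_mono (Hb.tgs.law ())).countable_not_continuousAt
  filter_upwards [ae_zs hb1 h1, N.toShN0.ctr H Hb hTop hF, N.hP] with g hg hv hD hbg hG
  rw [Set.mem_union, not_or] at hg
  obtain ⟨c2, c3⟩ := hg
  simp only [Set.mem_ofPred_eq, not_not] at c2 c3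
  obtain ⟨z0, z1, hgr', c1⟩ := hv hbg hG
  obtain ⟨δ, hδ, hD⟩ := hD hbg hG
  obtain ⟨⟨⟨g0, g1, hgr, hct⟩, hdg⟩, ⟨a', k1, k2, k3⟩, hcP⟩ := hG
  obtain ⟨a₂, ha₂⟩ : ∃ a₂, a₂ = min a' (g + δ / 2) := ⟨_, rfl⟩
  have p1 : g < a₂ := by
    rw [ha₂]
    exact lt_min k1 (by linarith)
  have p2 : a₂ ≤ a' := by
    rw [ha₂]
    exact min_le_left _ _
  have p3 : a₂ < g + δ := by
    have := min_le_right a' (g + δ / 2)
    rw [ha₂]
    linarith
  obtain ⟨a'', hav⟩ : ∃ a'', a'' = (g + a₂) / 2 := ⟨_, rfl⟩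
  have q1 : g < a'' := by rw [hav]; linarith
  have q2 : a'' < a₂ := by rw [hav]; linarith
  refine ⟨⟨⟨z0, z1, hgr', c1⟩, c2⟩,
    ⟨zs b a'', (zs_lt hb1).2 q1, (zs_le_one hb1).2 (by linarith), ?_⟩, c3⟩
  have hPl : a₂ ≤ P a₂ a₂ := H.tgs.low () a₂ a₂ (by linarith) le_rfl (by linarith)
  have hPu : P a₂ a₂ ≤ 1 := H.tgs.up () a₂ a₂ (by linarith) le_rfl (by linarith)
  have hPm : P a₂ a₂ ≤ P a' a' := by
    have h2 := dgP_mono (H.tgs.law ()) p2
    rwa [dgP_eq P (by linarith) (by linarith), dgP_eq P (by linarith) k2] at h2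
  have hPu' : P a' a' ≤ 1 := H.tgs.up () a' a' (by linarith) le_rfl k2
  have e1 := (hD a'' a₂ (by linarith) q2 p3).2
  have e2 := N.hr (P a₂ a₂) 1 (by linarith) hPu le_rfl
  rw [zs_one hb1] at e2
  have e3 : 1 - zs b (P a₂ a₂) = (1 - P a₂ a₂) / (1 - b) := by
    have h5 := zs_sub b 1 (P a₂ a₂)
    rwa [zs_one hb1] at h5
  have e0 : r (P a' a') - r (P a₂ a₂) ≤ P a' a' - P a₂ a₂ := by
    have h6 := H.rate.lip.dist_le_mul (P a' a') (P a₂ a₂)
    rw [NNReal.coe_one, one_mul, Real.dist_eq, Real.dist_eq,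
      abs_of_nonneg (show 0 ≤ P a' a' - P a₂ a₂ by linarith)] at h6
    exact (le_abs_self _).trans h6
  have e5 : rb (zs b (P a₂ a₂)) - rb (Pb (zs b a'') (zs b a'')) ≤
      zs b (P a₂ a₂) - Pb (zs b a'') (zs b a'') := by
    have h6 := Hb.rate.lip.dist_le_mul (zs b (P a₂ a₂)) (Pb (zs b a'') (zs b a''))
    rw [NNReal.coe_one, one_mul, Real.dist_eq, Real.dist_eq,
      abs_of_nonneg (show 0 ≤ zs b (P a₂ a₂) - Pb (zs b a'') (zs b a'') by linarith)] at h6
    exact (le_abs_self _).trans h6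
  have e4 : (1 - P a₂ a₂ - (r 1 - r (P a₂ a₂))) / (1 - b) ≤
      1 - Pb (zs b a'') (zs b a'') - (rb 1 - rb (Pb (zs b a'') (zs b a''))) := by
    rw [sub_div, ← e3]
    linarith
  have k4 : tht o.2 < 1 - P a₂ a₂ - (r 1 - r (P a₂ a₂)) := by linarith
  refine lt_of_lt_of_le (lt_of_lt_of_le k4 ?_) e4
  rw [le_div_iff₀ (by linarith)]
  have h5 := (tht_pos o.2).trans k4
  nlinarith

/-- **The levels** at the windows which are good for both packages. -/
theorem ShN1.lv (N : ShN1 hn o b P r P' Λ Pb rb Λb) (H : PkT hn S P r P' Λ PB)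
    (Hb : PkT hn Sb Pb rb Pb' Λb PBb) (hTop : TopS 4) (hF : FZX (4 - 1)) :
    ∀ᵐ g : ℝ, b < g → g ∈ Gs P r P' Λ o → ∀ l ≤ 4 - 1,
      LvL hn Pb Pb' o l (zs b g) (zs b g) = zs b (LvL hn P P' o l g g) := by
  filter_upwards [N.gs H Hb hTop hF, N.toShN0.vs H Hb hTop hF, N.hP] with g h1 h2 h3 hbg hg l hl
  have hgb := h1 hbg hg
  rcases hl.lt_or_eq with h | h
  · rw [gs_lvl Hb.toPk hTop hF hgb h, gs_lvl H.toPk hTop hF hg h]
    exact h2 hbg hg (l + 1) (by omega)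
  · subst h
    rw [lvL_last, lvL_last]
    exact N.hPg hbg hg (h3 hbg hg)

/-- A point of accumulation. -/
theorem accPt_ae (E : Set ℝ) : ∀ᵐ g : ℝ, g ∈ E → UniqueDiffWithinAt ℝ E g := by
  filter_upwards [two_acc E] with g h1 hg
  rw [uniqueDiffWithinAt_iff_accPt, accPt_iff_nhds]
  intro U hU
  obtain ⟨δ, hδ, h2⟩ := Metric.mem_nhds_iff.1 hU
  obtain ⟨x, hx, h4, h5⟩ := (h1 hg δ hδ).1
  refine ⟨x, ⟨h2 ?_, hx⟩, by linarith⟩
  rw [Metric.mem_ball, Real.dist_eq, abs_of_pos (by linarith)]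
  linarith

/-- **The slopes** of the second package. -/
theorem ShN1.der (N : ShN1 hn o b P r P' Λ Pb rb Λb) (H : PkT hn S P r P' Λ PB)
    (Hb : PkT hn Sb Pb rb Pb' Λb PBb) (hTop : TopS 4) (hF : FZX (4 - 1)) :
    ∀ᵐ g : ℝ, b < g → g ∈ Gs P r P' Λ o → ∀ l ≤ 4 - 1,
      deriv (fun a => LvL hn Pb Pb' o l a a) (zs b g) = deriv (fun a => LvL hn P P' o l a a) g := by
  have hb1 := N.b1
  obtain ⟨E, hE⟩ : ∃ E : Set ℝ, E = {g | g ∈ Gs P r P' Λ o ∧ ∀ l ≤ 4 - 1,
    LvL hn Pb Pb' o l (zs b g) (zs b g) = zs b (LvL hn P P' o l g g)} := ⟨_, rfl⟩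
  filter_upwards [N.gs H Hb hTop hF, N.lv H Hb hTop hF, H.dia_all H.pble hTop hF,
    ae_zs hb1 (Hb.dia_all Hb.pble hTop hF), accPt_ae E] with g h1 h1' h2 h3 h4 hbg hg l hl
  have hgb := h1 hbg hg
  have hgE : g ∈ E := by
    rw [hE]
    exact ⟨hg, h1' hbg hg⟩
  have d1 := (h2 o hg l hl).1.hasDerivAt
  have d2 := (h3 o hgb l hl).1.hasDerivAt
  have d3 : HasDerivAt (fun x => LvL hn Pb Pb' o l (zs b x) (zs b x))
      (deriv (fun a => LvL hn Pb Pb' o l a a) (zs b g) * (1 - b)⁻¹) g :=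
    HasDerivAt.comp g d2 (zs_hasDeriv b g)
  have d4 : HasDerivAt (fun x => zs b (LvL hn P P' o l x x))
      ((1 - b)⁻¹ * deriv (fun a => LvL hn P P' o l a a) g) g :=
    HasDerivAt.comp g (zs_hasDeriv b _) d1
  have d5 : HasDerivWithinAt (fun x => LvL hn Pb Pb' o l (zs b x) (zs b x))
      ((1 - b)⁻¹ * deriv (fun a => LvL hn P P' o l a a) g) E g := by
    refine d4.hasDerivWithinAt.congr (fun x hx => ?_) (h1' hbg hg l hl)
    rw [hE] at hx
    exact hx.2 l hl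
  have d6 := (h4 hgE).eq_deriv _ d3.hasDerivWithinAt d5
  have h5 : (1 - b)⁻¹ ≠ 0 := inv_ne_zero (by linarith)
  rw [mul_comm] at d6
  exact mul_left_cancel₀ h5 d6

end Pool.SHE3
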