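import Pool.Agent.H3.SHE.Num
import Pool.Agent.H3.D2G.Cel

/-!
# The transport of a leaf from a class behind a window

`rwh_of`: a good window with a small rate is the window of a row. `ShN1.rwh`: the windows of the rows
of the second package. `stp_sh`: the target is not thin for the second package. `sta_sh`: a static
target, from the lower bound of the thresholds off the diagonal. `shN_of`: the numbers of the second
package from the comparison of the thresholds near the good windows. `LeafA h`: the target is static at the windows of the kinds `1, s, 1` and a steep target,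
if the third coordinate has its labels over the first one. `she_pk`: this holds for the first
package, if it holds for the second one.
-/

set_option autoImplicit false

namespace Pool.SHE3

open MeasureTheory Set Filter Topology
open Pool.Agent.H49.Ent Pool.Agent.H32.Dense Pool.STK Pool.KA Pool.KSAT Pool.K2S Pool.PB
open Pool.GEN Pool.S6C Pool.STAT Pool.CHT Pool.GRW Pool.ONE Pool.STA Pool.PKG
open Pool.LEV (Law)
open Pool.TOP (TopS)
open Pool.STR (NumI ThinAt SteepAt StaAt StaD Mac ae_dia)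

section

variable {n : ℕ} {hn : 2 ≤ n} {S : PCl n} {P : ℝ → ℝ → ℝ} {r : ℝ → ℝ}
  {P' : ℕ → List (Fin n) × Fin n → ℝ → ℝ → ℝ} {Λ : Finset (Fin n) → Fin n → ℝ → ℝ → ℝ}
  {PB : ℕ → List (Fin n) × Fin n → ℝ → ℝ → ℝ}

/-- **The windows of the rows**: good windows with a small rate. -/
theorem rwh_of (H : PkT hn S P r P' Λ PB) (hTop : TopS n) (hF : FZX (n - 1)) (o : Od n) :
    ∀ᵐ g : ℝ, g ∈ Gs P r P' Λ o → ∀ h : ℝ, 0 ≤ h →
      (DifferentiableAt ℝ r (P g g) → deriv r (P g g) < 1 - h) → RwH H hTop hF h o g := by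
  filter_upwards [H.dia_all H.pble hTop hF,
    ae_dia (H.tgs.law ()) H.rate.lip.ae_differentiableAt_real] with g h1 h2 hg h hh hr
  have g0 : 0 < g := hg.1.1.1
  have g1 : g < 1 := hg.1.1.2.1
  have hP1 := tgt_lt H.toPk hTop hF hg
  have eL : ∀ i ≤ n - 1, (H.nk hTop hF).dg o i = fun a => LvL hn P P' o i a a := by
    intro i hi
    funext a
    rw [H.dg_eq hTop hF o hi a, Pool.Z4.lvL_eq o hi]
  have hlt : ∀ i ≤ n - 1, LvL hn P P' o i g g < 1 := fun i hi =>
    lev_lt' H.toPk hTop hF hg hi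
  have hd := fun i hi => (h1 o hg i hi).1
  have eP : LvL hn P P' o (n - 1) = P := lvL_last o
  have hdP := hd (n - 1) le_rfl
  rw [eP] at hdP
  have hone := one_le_slope (H.tgs.law ()) g0 g1 hP1 hdP
  have hrd := h2 g0 g1 hdP (by linarith)
  refine ⟨⟨hg, g0, g1, hP1, fun i hi => ?_, fun i hi => ?_, fun i hi => ?_, hrd, ?_⟩, hr hrd⟩
  · rw [eL i hi]
    exact hd i hi
  · rw [eL i hi]
    exact one_le_slope (H.lawL o i) g0 g1 (hlt i hi) (hd i hi)
  · rw [eL i hi]
    exact hlt i hi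
  · have := hr hrd
    linarith

end

/-- A derivative from an inequality on the right side. -/
theorem der_nonneg {f : ℝ → ℝ} {p d : ℝ} (hf : HasDerivAt f d p) {δ : ℝ} (hδ : 0 < δ)
    (h : ∀ y, p < y → y < p + δ → f p ≤ f y) : 0 ≤ d := by
  have h1 := (hasDerivAt_iff_tendsto_slope.1 hf).mono_left
    (nhdsWithin_mono p (show Set.Ioi p ⊆ {p}ᶜ from fun y hy => ne_of_gt hy))
  refine ge_of_tendsto h1 ?_
  filter_upwards [Ioo_mem_nhdsGT (show p < p + δ by linarith)] with y hy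
  rw [slope_def_field]
  exact div_nonneg (by linarith [h y hy.1 hy.2]) (by linarith [hy.1])

variable {hn : 2 ≤ 4} {S Sb : PCl 4} {P Pb : ℝ → ℝ → ℝ} {r rb : ℝ → ℝ}
  {P' Pb' : ℕ → List (Fin 4) × Fin 4 → ℝ → ℝ → ℝ} {Λ Λb : Finset (Fin 4) → Fin 4 → ℝ → ℝ → ℝ}
  {PB PBb : ℕ → List (Fin 4) × Fin 4 → ℝ → ℝ → ℝ} {o : Od 4} {b : ℝ}

/-- **The windows of the rows** of the second package. -/
theorem ShN1.rwh (N : ShN1 hn o b P r P' Λ Pb rb Λb) (H : PkT hn S P r P' Λ PB)
    (Hb : PkT hn Sb Pb rb Pb' Λb PBb) (hTop : TopS 4) (hF : FZX (4 - 1)) {h : ℝ} (hh : 0 ≤ h) :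
    ∀ᵐ g : ℝ, b < g → RwH H hTop hF h o g → RwH Hb hTop hF h o (zs b g) := by
  have hb1 := N.b1
  filter_upwards [N.gs H Hb hTop hF, ae_zs hb1 (rwh_of Hb hTop hF o), N.hP] with g h1 h2 hD hbg R
  have hg : g ∈ Gs P r P' Λ o := R.rwd.mem
  have g1 := R.rwd.g1
  have g0 := R.rwd.g0
  refine h2 (h1 hbg hg) h hh fun hd => ?_
  have e1 := N.hPg hbg hg (hD hbg hg)
  rw [e1] at hd ⊢
  obtain ⟨p, hp⟩ : ∃ p, p = P g g := ⟨_, rfl⟩
  rw [← hp] at hd ⊢
  have hp1 : p < 1 := by rw [hp]; exact R.rwd.val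
  have hpb : b < p := by
    have := H.tgs.low () g g g0.le le_rfl g1.le
    rw [hp]
    linarith
  have d1 : HasDerivAt r (deriv r p) p := by
    rw [hp]
    exact R.rwd.rdif.hasDerivAt
  have d2 : HasDerivAt (fun y => rb (zs b y)) (deriv rb (zs b p) * (1 - b)⁻¹) p :=
    HasDerivAt.comp p hd.hasDerivAt (zs_hasDeriv b p)
  have d3 : HasDerivAt (fun y => r y / (1 - b) - rb (zs b y))
      (deriv r p / (1 - b) - deriv rb (zs b p) * (1 - b)⁻¹) p := (d1.div_const (1 - b)).sub d2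
  have h3 := der_nonneg d3 (δ := 1 - p) (by linarith) fun y hy hy1 => by
    have h4 := N.hr p y hpb.le hy.le (by linarith)
    rw [sub_div] at h4
    linarith
  have h5 : deriv rb (zs b p) * (1 - b)⁻¹ ≤ deriv r p * (1 - b)⁻¹ := by
    rw [div_eq_mul_inv] at h3
    linarith
  have h6 := le_of_mul_le_mul_right h5 (inv_pos.2 (by linarith))
  have h7 := R.defi
  rw [← hp] at h7
  linarith

/-- **The target is not thin** for the second package. -/
theorem stp_sh (hb0 : 0 < b) (hb1 : b < 1) (H : PkT hn S P r P' Λ PB)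
    (Hb : PkT hn Sb Pb rb Pb' Λb PBb) {g : ℝ} (hbg : b < g) (hg : g ∈ Gs P r P' Λ o)
    (hD : DiaW b P Pb g) (hO : OffW b P Pb g)
    (hT : PT hn PB o g g = P g g) (hs : SteepAt 2 (PT hn PB o) g)
    (ht : ThinAt Pb (PT hn PBb o) (zs b g)) : False := by
  have g1 : g < 1 := hg.1.1.2.1
  obtain ⟨δ₀, hδ₀, hO⟩ := hO
  obtain ⟨δ₂, hδ₂, hD⟩ := hD
  obtain ⟨δ, hδ', hδm⟩ : ∃ δ, 0 < δ ∧ δ ≤ δ₀ ∧ δ ≤ δ₂ :=
    ⟨min δ₀ δ₂, lt_min hδ₀ hδ₂, min_le_left _ _, min_le_right _ _⟩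
  obtain ⟨hδa, hδb⟩ := hδm
  have hδ : 0 < δ := hδ'
  obtain ⟨r₁, hr₁, h1⟩ := hs (1 / 4) (by norm_num)
  obtain ⟨r₂, hr₂, h2⟩ := ht (1 / 4) (by norm_num)
  obtain ⟨q, hq⟩ : ∃ q, q = min (min r₁ δ) (min (r₂ * (1 - b)) (1 - g)) / 4 := ⟨_, rfl⟩
  have hb : 0 < 1 - b := by linarith
  have hm : 0 < min (min r₁ δ) (min (r₂ * (1 - b)) (1 - g)) :=
    lt_min (lt_min hr₁ hδ) (lt_min (mul_pos hr₂ hb) (by linarith))
  have m1 := min_le_left (min r₁ δ) (min (r₂ * (1 - b)) (1 - g))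
  have m2 := min_le_right (min r₁ δ) (min (r₂ * (1 - b)) (1 - g))
  have hq0 : 0 < q := by rw [hq]; linarith
  have hq1 : q < r₁ := by rw [hq]; linarith [min_le_left r₁ δ]
  have hqδ : 4 * q ≤ δ := by rw [hq]; linarith [min_le_right r₁ δ]
  have hq2 : q < r₂ * (1 - b) := by
    rw [hq]
    linarith [min_le_left (r₂ * (1 - b)) (1 - g)]
  have hq3 : 4 * q ≤ 1 - g := by
    rw [hq]
    linarith [min_le_right (r₂ * (1 - b)) (1 - g)]
  have hcP : ContinuousAt (dgP P) g := hg.2.2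
  obtain ⟨δ₁, hδ₁, hc⟩ := Metric.eventually_nhds_iff.1 (hcP.eventually (gt_mem_nhds
    (show dgP P g < dgP P g + q / 8 by linarith)))
  obtain ⟨τ, hτ⟩ : ∃ τ, τ = min q δ₁ / 4 := ⟨_, rfl⟩
  have hm' : 0 < min q δ₁ := lt_min hq0 hδ₁
  have hτ0 : 0 < τ := by rw [hτ]; linarith
  have hτq : 4 * τ ≤ q := by rw [hτ]; linarith [min_le_left q δ₁]
  have hτδ : 4 * τ ≤ δ₁ := by rw [hτ]; linarith [min_le_right q δ₁]
  have h3 := h1 q hq0 hq1 (g + q) g (by linarith) (by linarith) (by linarith)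
  have h4 := H.le o (g + q) g (by linarith) (by linarith) (by linarith)
  have hqb : 0 < q / (1 - b) := div_pos hq0 hb
  have e1 := zs_sub b (g + q + τ) g
  have e2 := zs_sub b (g + τ) g
  have z1 : (q + τ) / (1 - b) ≤ 8 * (q / (1 - b)) := by
    rw [← mul_div_assoc, div_le_div_iff_of_pos_right hb]
    linarith
  have h5 := h2 (q / (1 - b)) hqb (by rwa [div_lt_iff₀ hb]) (zs b (g + q + τ)) (zs b (g + τ))
    (by
      have : 0 ≤ (g + τ - g) / (1 - b) := div_nonneg (by linarith) hb.le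
      linarith) ((zs_le hb1).2 (by linarith)) (by
      rw [show g + q + τ - g = q + τ by ring] at e1
      linarith)
  have h6 := Hb.le o (zs b (g + τ)) (zs b (g + τ)) ((zs_pos hb1).2 (by linarith)) le_rfl
    ((zs_le_one hb1).2 (by linarith))
  have h7 := hO (g + q) (g + q + τ) g (g + τ) (by linarith) (by linarith) (by linarith)
    (by linarith) (by linarith)
  have h8 := (hD (g + τ) (g + 2 * τ) (by linarith) (by linarith) (by linarith)).2
  have h9 : P (g + 2 * τ) (g + 2 * τ) < P g g + q / 8 := by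
    have h10 := @hc (g + 2 * τ) (by
      rw [Real.dist_eq, show g + 2 * τ - g = 2 * τ by ring, abs_of_pos (by linarith)]
      linarith)
    rwa [dgP_eq P (by linarith) (by linarith), dgP_eq P (by linarith) (by linarith)] at h10
  have h10 : zs b (P (g + 2 * τ) (g + 2 * τ)) ≤ zs b (P g g + q / 8) := (zs_le hb1).2 h9.le
  rw [zs_sub, show g + q + τ - (g + τ) = q by ring] at h5
  have h11 : zs b (P (g + q) g) - zs b (P g g + q / 8) ≤ (q + 1 / 4 * q) / (1 - b) := by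
    rw [add_div, mul_div_assoc]
    linarith
  rw [zs_sub, div_le_div_iff_of_pos_right hb] at h11
  rw [hT] at h3
  linarith

/-- **A static target**, from the lower bound of the thresholds off the diagonal. -/
theorem sta_sh (hb1 : b < 1) (H : PkT hn S P r P' Λ PB) {g : ℝ} (hb0 : 0 < b) (hbg : b < g)
    (g1 : g < 1) (hD : DiaW b P Pb g) (hO : OffS b P Pb g)
    (hd : DifferentiableAt ℝ (fun a => P a a) g) (h : StaAt Pb (zs b g)) : StaAt P g := by
  have hb : 0 < 1 - b := by linarith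
  obtain ⟨δ₀, hδ₀, hO⟩ := hO
  obtain ⟨δ₂, hδ₂, hD⟩ := hD
  obtain ⟨δ, hδ', hδm⟩ : ∃ δ, 0 < δ ∧ δ ≤ δ₀ ∧ δ ≤ δ₂ :=
    ⟨min δ₀ δ₂, lt_min hδ₀ hδ₂, min_le_left _ _, min_le_right _ _⟩
  obtain ⟨hδa, hδb⟩ := hδm
  have hδ : 0 < δ := hδ'
  intro e he
  obtain ⟨s, hs⟩ : ∃ s, s = deriv (fun a => P a a) g := ⟨_, rfl⟩
  obtain ⟨δ₁, hδ₁, hc⟩ := Metric.eventually_nhds_iff.1
    ((hasDerivAt_iff_isLittleO.1 hd.hasDerivAt).bound (show 0 < e / 100 by linarith))
  rw [← hs] at hc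
  obtain ⟨r₀, hr₀, h1⟩ := h (e / 8) (by linarith)
  have hs0 : 0 < 8 * (|s| + 1) := by positivity
  obtain ⟨κ, hκ⟩ : ∃ κ, κ = min (1 / 2) (e / (8 * (|s| + 1))) := ⟨_, rfl⟩
  have hκ0 : 0 < κ := by
    rw [hκ]
    exact lt_min (by norm_num) (div_pos he hs0)
  have hκ1 : κ ≤ 1 / 2 := by
    rw [hκ]
    exact min_le_left _ _
  have hκ2 : |s| * κ ≤ e / 8 := by
    have h2 : κ ≤ e / (8 * (|s| + 1)) := by
      rw [hκ]
      exact min_le_right _ _
    rw [le_div_iff₀ hs0] at h2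
    have h3 : κ * (8 * (|s| + 1)) = 8 * (|s| * κ) + 8 * κ := by ring
    linarith
  refine ⟨min (min (r₀ * (1 - b) / 2) (δ₁ / 10)) (min (min ((g - b) / 10) ((1 - g) / 10))
    (δ / 10)), lt_min (lt_min (by positivity) (by linarith)) (lt_min (lt_min (by linarith)
    (by linarith)) (by linarith)), fun q hq hq' => ?_⟩
  have k1 := hq'.trans_le ((min_le_left _ _).trans (min_le_left _ _))
  have k2 := hq'.trans_le ((min_le_left _ _).trans (min_le_right _ _))
  have k3 := hq'.trans_le ((min_le_right _ _).trans ((min_le_left _ _).trans (min_le_left _ _)))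
  have k4 := hq'.trans_le ((min_le_right _ _).trans ((min_le_left _ _).trans (min_le_right _ _)))
  have k5 := hq'.trans_le ((min_le_right _ _).trans (min_le_right _ _))
  intro a w hw hwa ha
  rcases hwa.eq_or_lt with rfl | hwa
  · have : 0 < e * q := mul_pos he hq
    linarith
  obtain ⟨τ, hτ⟩ : ∃ τ, τ = κ * q := ⟨_, rfl⟩
  have hτ0 : 0 < τ := by rw [hτ]; positivity
  have hτq : τ ≤ q / 2 := by
    rw [hτ]
    have := mul_le_mul_of_nonneg_right hκ1 hq.le
    linarith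
  have h12 : s * (2 * τ) ≤ e * q / 4 := by
    have h13 : s * (2 * τ) ≤ |s| * (2 * τ) := mul_le_mul_of_nonneg_right (le_abs_self _)
      (by linarith)
    have h14 : |s| * (2 * τ) = 2 * (|s| * κ) * q := by
      rw [hτ]
      ring
    have h15 := mul_le_mul_of_nonneg_right hκ2 hq.le
    linarith
  have h19 : 0 < e * q := mul_pos he hq
  have h6 := @hc a (by
    rw [Real.dist_eq, abs_lt]
    constructor <;> linarith)
  rw [Real.norm_eq_abs, Real.norm_eq_abs, smul_eq_mul] at h6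
  have h8 : |a - g| ≤ 8 * q := by
    rw [abs_le]
    constructor <;> linarith
  have h10 := (abs_le.1 h6).2
  have h17 : e / 100 * |a - g| ≤ e / 100 * (8 * q) := mul_le_mul_of_nonneg_left h8 (by linarith)
  rcases le_or_gt (a - w) τ with haw | haw
  · have h7 := @hc w (by
      rw [Real.dist_eq, abs_lt]
      constructor <;> linarith)
    rw [Real.norm_eq_abs, Real.norm_eq_abs, smul_eq_mul] at h7
    have h9 : |w - g| ≤ 8 * q := by
      rw [abs_le]
      constructor <;> linarith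
    have h11 := (abs_le.1 h7).1
    have h18 : e / 100 * |w - g| ≤ e / 100 * (8 * q) := mul_le_mul_of_nonneg_left h9 (by linarith)
    have h16 : s * (a - w) ≤ |s| * τ := by
      refine (mul_le_mul_of_nonneg_right (le_abs_self s) (by linarith)).trans ?_
      exact mul_le_mul_of_nonneg_left haw (abs_nonneg s)
    have h15 : |s| * τ ≤ e * q / 8 := by
      have h14 : |s| * τ = |s| * κ * q := by
        rw [hτ]
        ring
      have h13 := mul_le_mul_of_nonneg_right hκ2 hq.le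
      linarith
    have h20 : P w w ≤ P a w := by
      have hL := H.tgs.law ()
      have h2 := hL.slope w w (a - w) (by linarith) le_rfl (by linarith) (by linarith)
      rw [show w + (a - w) = a by ring] at h2
      have h3 : P w w ≤ 1 := H.tgs.up () w w (by linarith) le_rfl (by linarith)
      rcases min_le_iff.1 h2 with h4 | h4
      · linarith
      · linarith
    have h21 : (a - g) * s - (w - g) * s = s * (a - w) := by ring
    linarith
  have hqb : 0 < 2 * q / (1 - b) := div_pos (by linarith) hb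
  have z1 := zs_sub b (w - τ) g
  have z2 := zs_sub b (a - τ) g
  have h2 := h1 (2 * q / (1 - b)) hqb (by
    rw [div_lt_iff₀ hb]
    linarith) (zs b (a - τ)) (zs b (w - τ)) (by
    have h3 : (-(8 * (2 * q))) / (1 - b) ≤ (w - τ - g) / (1 - b) := by
      rw [div_le_div_iff_of_pos_right hb]
      linarith
    rw [neg_div, mul_div_assoc] at h3
    linarith) ((zs_le hb1).2 (by linarith)) (by
    have h3 : (a - τ - g) / (1 - b) ≤ (8 * (2 * q)) / (1 - b) := by
      rw [div_le_div_iff_of_pos_right hb]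
      linarith
    rw [mul_div_assoc] at h3
    linarith)
  have h3 := hO (a - τ) a (w - τ) w (by linarith) (by linarith) (by linarith) (by linarith)
    (by linarith)
  have h4 := (hD (a - 2 * τ) (a - τ) (by linarith) (by linarith) (by linarith)).1
  have h5 : zs b (P (a - 2 * τ) (a - 2 * τ)) - zs b (P a w) ≤ e * q / 4 / (1 - b) := by
    have h6 : e / 8 * (2 * q / (1 - b)) = e * q / 4 / (1 - b) := by ring
    rw [h6] at h2
    linarith
  rw [zs_sub, div_le_div_iff_of_pos_right hb] at h5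
  have h7 := @hc (a - 2 * τ) (by
    rw [Real.dist_eq, abs_lt]
    constructor <;> linarith)
  rw [Real.norm_eq_abs, Real.norm_eq_abs, smul_eq_mul] at h7
  have h9 : |a - 2 * τ - g| ≤ 9 * q := by
    rw [abs_le]
    constructor <;> linarith
  have h11 := (abs_le.1 h7).1
  have h16 : (a - g) * s - (a - 2 * τ - g) * s = s * (2 * τ) := by ring
  have h18 : e / 100 * |a - 2 * τ - g| ≤ e / 100 * (9 * q) :=
    mul_le_mul_of_nonneg_left h9 (by linarith)
  linarith

/-- The thresholds of the target near a window, both bounds. -/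
def OffB (b : ℝ) (P Pb : ℝ → ℝ → ℝ) (g : ℝ) : Prop :=
  ∃ δ : ℝ, 0 < δ ∧ ∀ a a' w w' : ℝ, g - δ < w →
    w < w' → w ≤ a → w' ≤ a' → a < a' → a' < g + δ →
      zs b (P a w) ≤ Pb (zs b a') (zs b w') ∧ Pb (zs b a) (zs b w) ≤ zs b (P a' w')

/-- **The numbers of the second package**, from the comparison of the thresholds of the target near
the good windows. -/
theorem shN_of (N : ShN0 hn o b r Λ rb Λb) (H : PkT hn S P r P' Λ PB) (hTop : TopS 4)
    (hF : FZX (4 - 1)) (hO : ∀ᵐ g : ℝ, b < g → g ∈ Gs P r P' Λ o → OffB b P Pb g) :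
    ShN hn o b P r P' Λ Pb rb Pb' Λb := by
  have hD : ∀ g : ℝ, OffB b P Pb g → DiaW b P Pb g := by
    rintro g ⟨δ, hδ, h⟩
    exact ⟨δ, hδ, fun a a' h1 h2 h3 => h a a' a a' h1 h2 le_rfl le_rfl h2 h3⟩
  refine ⟨⟨N, ?_⟩, ?_, ?_⟩
  · filter_upwards [hO] with g h hbg hg
    exact hD g (h hbg hg)
  · filter_upwards [hO] with g h hbg hg _
    obtain ⟨δ, hδ, h1⟩ := h hbg hg
    exact ⟨δ, hδ, fun a a' w w' k1 k2 k3 k4 k5 =>
      (h1 a a' w w' k1 k2 (by linarith) (by linarith) k4 k5).1⟩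
  · filter_upwards [hO, H.dia_all H.pble hTop hF] with g h h2 hbg hg _ hst
    have h0 := h hbg hg
    obtain ⟨δ, hδ, h1⟩ := h0
    have hdP := (h2 o hg 3 le_rfl).1
    have e3 : LvL hn P P' o 3 = P := lvL_last (hn := hn) (P := P) (P' := P') o
    rw [e3] at hdP
    exact sta_sh N.b1 H N.b0 hbg hg.1.1.2.1 (hD g ⟨δ, hδ, h1⟩)
      ⟨δ, hδ, fun a a' w w' k1 k2 k3 k4 k5 =>
        (h1 a a' w w' k1 k2 (by linarith) (by linarith) k4 k5).2⟩ hdP hst

/-- **The leaf**: the target is static at the windows of the kinds `1, s, 1` with a steep target, if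
the third coordinate has its labels over the first one. -/
def LeafAt (H : PkT hn S P r P' Λ PB) (hTop : TopS 4) (hF : FZX (4 - 1)) (h : ℝ) : Prop :=
  ∀ o : Od 4, ∀ᵐ g : ℝ, RwH H hTop hF h o g → (∀ l < 3, ThS hn P P' PB o l g) →
    KdAt hn P P' PB o 0 g .one → (KdAt hn P P' PB o 1 g .thin ∨ KdAt hn P P' PB o 1 g .sta) →
    KdAt hn P P' PB o 2 g .one → 2 < deriv (fun a => LvL hn P P' o 3 a a) g →
    SteepAt 2 (LvT hn PB o 3) g →
    (∃ ρ < 1, LvL hn P P' o 2 g g ≤ Λ ((Finset.range 1).image (cc hn o.1.1)) (cc hn o.1.1 2) g ρ) →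
    StaAt (LvL hn P P' o 3) g

/-- The leaf for all packages. -/
def LeafA (h : ℝ) : Prop :=
  ∀ (hn : 2 ≤ 4) (hTop : TopS 4) (hF : FZX (4 - 1)) (S : PCl 4) (P : ℝ → ℝ → ℝ) (r : ℝ → ℝ)
    (P' : ℕ → List (Fin 4) × Fin 4 → ℝ → ℝ → ℝ) (Λ : Finset (Fin 4) → Fin 4 → ℝ → ℝ → ℝ)
    (PB : ℕ → List (Fin 4) × Fin 4 → ℝ → ℝ → ℝ) (H : PkT hn S P r P' Λ PB),
    LeafAt H hTop hF h

/-- (D2) at the place one. -/
theorem two_one {n : ℕ} {hn : 2 ≤ n} {S : PCl n} {P : ℝ → ℝ → ℝ} {r : ℝ → ℝ}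
    {P' : ℕ → List (Fin n) × Fin n → ℝ → ℝ → ℝ} {Λ : Finset (Fin n) → Fin n → ℝ → ℝ → ℝ}
    {PB : ℕ → List (Fin n) × Fin n → ℝ → ℝ → ℝ} (H : PkT hn S P r P' Λ PB) (hTop : TopS n)
    (hF : FZX (n - 1)) (h : ℝ) : TwoAt H hTop hF h 1 :=
  twoAt_of H hTop hF le_rfl (by omega) fun κ hκ => by
    have h1 : κ = [] := List.length_eq_zero_iff.1 (by omega)
    rw [h1]
    exact cell_one H hTop hF _

/-- **The leaf from the second package.** -/
theorem she_pk {h : ℝ} (hh : 0 ≤ h) (hL : LeafA h) (N : ShN hn o b P r P' Λ Pb rb Pb' Λb)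
    (H : PkT hn S P r P' Λ PB) (Hb : PkT hn Sb Pb rb Pb' Λb PBb) (hTop : TopS 4)
    (hF : FZX (4 - 1)) {V : Set ℝ}
    (hV : ∀ w ∈ V, b < w → w < 1 → ∃ ρ < 1, ∀ w' : ℝ, w < w' → w' < 1 →
      zs b (LvL hn P P' o 2 w w) ≤
        Λb ((Finset.range 1).image (cc hn o.1.1)) (cc hn o.1.1 2) (zs b w') (zs b ρ)) :
    ∀ᵐ g : ℝ, g ∈ V → b < g → RwH H hTop hF h o g →
      1 < deriv (fun a => LvL hn P P' o 1 a a) g → deriv (fun a => LvL hn P P' o 2 a a) g = 1 →
      2 < deriv (fun a => LvL hn P P' o 3 a a) g → SteepAt 2 (LvT hn PB o 3) g →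
      StaAt (LvL hn P P' o 3) g := by
  have hb1 := N.b1
  have hEv : ∀ Sb del : ℝ, 1 ≤ Sb → 0 < del → EvTC (4 - 1) Sb del := fun Sb del h1 h2 =>
    evTC (4 - 1) (by norm_num) Sb del h1 h2
  have hcq : ∀ᵐ g : ℝ, ∀ q : ℚ, ContinuousAt (fun x => Λb ((Finset.range 1).image (cc hn o.1.1))
      (cc hn o.1.1 2) (zs b x) q) g := by
    refine ae_all_iff.2 fun q => ?_
    have h2 : Monotone fun x => Λb ((Finset.range 1).image (cc hn o.1.1)) (cc hn o.1.1 2)
        (zs b x) q := fun x y h => Hb.lam.mono _ _ _ _ _ _ _ (Finset.Subset.refl _)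
      (zs_mono hb1 h) le_rfl
    filter_upwards [h2.countable_not_continuousAt.ae_notMem volume] with w hw
    by_contra hcon
    exact hw hcon
  filter_upwards [N.gs H Hb hTop hF, N.der H Hb hTop hF, N.rwh H Hb hTop hF hh,
    ae_zs hb1 (hL hn hTop hF Sb Pb rb Pb' Λb PBb Hb o), ae_zs hb1 (Pool.Z4.ths_of Hb hTop hF),
    ae_zs hb1 (kd_ae Hb hTop hF), ae_zs hb1 (one_zero Hb hTop hF o),
    ae_zs hb1 (Hb.mac_of Hb.pble hTop hF hEv), ae_zs hb1 (two_one Hb hTop hF h o),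
    (H.nk hTop hF).derT_ae (H.tgs.law ()) o, N.lv H Hb hTop hF, hcq, N.hO,
    N.hS, N.hP] with g a1 a2 a3 a4 a5 a6 a7 a8 a9 a10 a11 a12 a13 a14 a15 hgV hbg R
      s1 s2 s3 hst
  have hg : g ∈ Gs P r P' Λ o := R.rwd.mem
  have g0 := R.rwd.g0
  have g1 := R.rwd.g1
  have hgb := a1 hbg hg
  have Rb := a3 hbg R
  have hd := a2 hbg hg
  have hOf : OffW b P Pb g := a13 hbg hg hgb
  have e3 : LvL hn P P' o 3 = P := lvL_last (hn := hn) (P := P) (P' := P') o
  have e3b : LvL hn Pb Pb' o 3 = Pb := lvL_last (hn := hn) (P := Pb) (P' := Pb') o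
  have t3 : LvT hn PB o 3 = PT hn PB o := LvT_top o
  have t3b : LvT hn PBb o 3 = PT hn PBb o := LvT_top o
  have hth : ∀ l < 3, ThS hn Pb Pb' PBb o l (zs b g) := by
    refine a5 o hgb fun i hi1 hi hl hs hst => ?_
    have hi3 : i < 3 := hi
    rw [← Pool.Z4.lvL_eq o (by omega)] at hs ⊢
    obtain rfl | rfl : i = 1 ∨ i = 2 := by omega
    · exact a9 Rb hl hs hst
    · rw [hd 2 (by norm_num), s2] at hs
      linarith
  have hk1 : KdAt hn Pb Pb' PBb o 1 (zs b g) .thin ∨ KdAt hn Pb Pb' PBb o 1 (zs b g) .sta := by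
    obtain ⟨k, hk⟩ := a6 o hgb 3 le_rfl hth 1 (by norm_num)
    cases k with
    | one =>
      have h5 : deriv (fun a => LvL hn Pb Pb' o 1 a a) (zs b g) = 1 := hk
      rw [hd 1 (by norm_num)] at h5
      linarith
    | thin => exact Or.inl hk
    | sta => exact Or.inr hk
  have hsb : 2 < deriv (fun a => LvL hn Pb Pb' o 3 a a) (zs b g) := by
    rw [hd 3 le_rfl]
    exact s3
  have hstb : SteepAt 2 (LvT hn PBb o 3) (zs b g) := by
    rcases a8 o hgb hth with h6 | h6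
    · exfalso
      rw [t3] at hst
      exact stp_sh N.b0 hb1 H Hb hbg hg (a15 hbg hg) hOf (a10 hg g0 g1).1 hst h6
    · rw [t3b]
      exact h6
  obtain ⟨ρ, hρ, h7⟩ := hV g hgV hbg g1
  obtain ⟨q, hq0, hq1⟩ := exists_rat_btwn (show zs b ρ < 1 from (zs_lt_one hb1).2 hρ)
  have h8 : zs b (LvL hn P P' o 2 g g) ≤
      Λb ((Finset.range 1).image (cc hn o.1.1)) (cc hn o.1.1 2) (zs b g) q := by
    refine ge_of_tendsto ((a12 q).tendsto.mono_left (nhdsWithin_le_nhds (s := Set.Ioi g))) ?_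
    filter_upwards [Ioo_mem_nhdsGT g1] with w hw
    exact (h7 w hw.1 hw.2).trans (Hb.lam.mono _ _ _ _ _ _ _ (Finset.Subset.refl _) le_rfl hq0.le)
  have h9 := a4 Rb hth (a7 hgb) hk1 (show deriv (fun a => LvL hn Pb Pb' o 2 a a) (zs b g) = 1 by
    rw [hd 2 (by norm_num)]
    exact s2) hsb hstb ⟨q, hq1, by
      rw [a11 hbg hg 2 (by norm_num)]
      exact h8⟩
  rw [e3b] at h9
  rw [e3]
  exact a14 hbg hg hgb h9

end Pool.SHE3
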