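import Pool.Agent.H3.SHE.She
import Pool.Agent.H57.SWB.Jrs
import Pool.Agent.H88.D2.Css
import Pool.Agent.H90.D2.Hih

/-!
# The cell `one, thin, sta`, the slope of the place 1 larger than the slope of the place 2

`LeafT`: the target is static at the windows with two coordinates of slopes larger than one, thin or
static, if the third coordinate has its labels over the first one. `she_pk2`: this holds for the first
package, if it holds for the second one. `SupT`, `LSheT`: the supply of the second packages.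
`lCellS_ts`: the cell `one, thin, sta` from its cell at the windows where the swapped list exists.
-/

set_option autoImplicit false

namespace Pool.SHE3

open MeasureTheory Set Filter Topology
open Pool.Agent.H49.Ent Pool.Agent.H32.Dense Pool.STK Pool.KA Pool.KSAT Pool.K2S Pool.PB
open Pool.GEN Pool.S6C Pool.STAT Pool.CHT Pool.GRW Pool.ONE Pool.STA Pool.PKG Pool.ASM
open Pool.LEV (Law)
open Pool.TOP (TopS)
open Pool.STR (NumI ThinAt SteepAt StaAt StaD IsoAt Mac ae_dia)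
open Pool.SWP (TwA LCellR)

/-- **A steep threshold is macroscopic.** -/
theorem mac_steep {B : ℝ → ℝ → ℝ} (hB : Law B) : ∀ᵐ g : ℝ, 0 < g → g < 1 → B g g < 1 →
    SteepAt 2 B g → Mac B g := by
  filter_upwards [STR.isoS_or_mac hB] with g h hg0 hg1 hlt hs
  rcases h hg0 hg1 hlt with h1 | h1
  · exfalso
    obtain ⟨r₁, hr₁, h1⟩ := h1 (1 / 4) (by norm_num)
    obtain ⟨r₂, hr₂, h2⟩ := hs (1 / 4) (by norm_num)
    obtain ⟨r, hr⟩ : ∃ r, r = min r₁ r₂ / 2 := ⟨_, rfl⟩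
    have hm : 0 < min r₁ r₂ := lt_min hr₁ hr₂
    have hr0 : 0 < r := by rw [hr]; linarith
    obtain ⟨S, h1⟩ := h1 r hr0 (by rw [hr]; linarith [min_le_left r₁ r₂])
    have h3 := h2 r hr0 (by rw [hr]; linarith [min_le_right r₁ r₂]) (g + r) g (by linarith)
      (by linarith) (by linarith)
    have h4 := (abs_le.1 (h1 (g + r) g (by linarith) (by linarith) (by linarith))).2
    have h5 : (S - 1) * (g - g) = 0 := by ring
    rw [h5] at h4
    linarith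
  · exact h1

section

variable {hn : 2 ≤ 4} {S : PCl 4} {P : ℝ → ℝ → ℝ} {r : ℝ → ℝ}
  {P' : ℕ → List (Fin 4) × Fin 4 → ℝ → ℝ → ℝ} {Λ : Finset (Fin 4) → Fin 4 → ℝ → ℝ → ℝ}
  {PB : ℕ → List (Fin 4) × Fin 4 → ℝ → ℝ → ℝ}

/-- **The leaf**: the target is static at the windows with the slopes `φ`, the places 1 and 2 thin or
static, if the third coordinate has its labels over the first one. -/
def LeafT (φ : (ℕ → ℝ) → Prop) (H : PkT hn S P r P' Λ PB) (hTop : TopS 4) (hF : FZX (4 - 1))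
    (h : ℝ) : Prop :=
  ∀ o : Od 4, ∀ᵐ g : ℝ, RwH H hTop hF h o g → (∀ l < 3, ThS hn P P' PB o l g) →
    KdAt hn P P' PB o 0 g .one → (KdAt hn P P' PB o 1 g .thin ∨ KdAt hn P P' PB o 1 g .sta) →
    (KdAt hn P P' PB o 2 g .thin ∨ KdAt hn P P' PB o 2 g .sta) → φ (SlL hn P P' o g) →
    2 < deriv (fun a => LvL hn P P' o 3 a a) g → SteepAt 2 (LvT hn PB o 3) g →
    TwA hn P P' Λ 1 o g → StaAt (LvL hn P P' o 3) g

end

/-- The leaf for all packages. -/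
def LeafTA (φ : (ℕ → ℝ) → Prop) (h : ℝ) : Prop :=
  ∀ (hn : 2 ≤ 4) (hTop : TopS 4) (hF : FZX (4 - 1)) (S : PCl 4) (P : ℝ → ℝ → ℝ) (r : ℝ → ℝ)
    (P' : ℕ → List (Fin 4) × Fin 4 → ℝ → ℝ → ℝ) (Λ : Finset (Fin 4) → Fin 4 → ℝ → ℝ → ℝ)
    (PB : ℕ → List (Fin 4) × Fin 4 → ℝ → ℝ → ℝ) (H : PkT hn S P r P' Λ PB),
    LeafT φ H hTop hF h

/-- The slopes: the place 1 faster than the place 2, which has slope at most two. -/
structure SlT (φ : (ℕ → ℝ) → Prop) : Prop where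
  s1 : ∀ Sl, φ Sl → 2 < Sl 1
  s2 : ∀ Sl, φ Sl → 1 < Sl 2 ∧ Sl 2 ≤ 2
  cg : ∀ Sl Sl', (∀ l < 4, Sl l = Sl' l) → φ Sl → φ Sl'

/-- The slopes of the cell `one, thin, sta` left by the other theorems, the place 1 faster. -/
def SlTS (Sl : ℕ → ℝ) : Prop := Sl 2 = 2 ∧ 2 < Sl 1 ∧ Sl 3 = 1 + Sl 1

theorem slT_ts : SlT SlTS where
  s1 _ h := h.2.1
  s2 _ h := by
    rw [h.1]
    norm_num
  cg Sl Sl' h hS := by
    unfold SlTS at hS ⊢
    rwa [← h 1 (by norm_num), ← h 2 (by norm_num), ← h 3 (by norm_num)]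

/-- **The leaf from the second package.** -/
theorem she_pk2 {hn : 2 ≤ 4} {S Sb : PCl 4} {P Pb : ℝ → ℝ → ℝ} {r rb : ℝ → ℝ}
    {P' Pb' : ℕ → List (Fin 4) × Fin 4 → ℝ → ℝ → ℝ}
    {Λ Λb : Finset (Fin 4) → Fin 4 → ℝ → ℝ → ℝ}
    {PB PBb : ℕ → List (Fin 4) × Fin 4 → ℝ → ℝ → ℝ} {o : Od 4} {b h : ℝ}
    {φ : (ℕ → ℝ) → Prop} (hφ : SlT φ) (hh : 0 ≤ h) (hL : LeafTA φ h)
    (N : ShN hn o b P r P' Λ Pb rb Pb' Λb) (H : PkT hn S P r P' Λ PB)
    (Hb : PkT hn Sb Pb rb Pb' Λb PBb) (hTop : TopS 4) (hF : FZX (4 - 1)) {V : Set ℝ}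
    (hV : ∀ w ∈ V, b < w → w < 1 → ∀ w' : ℝ, w < w' → w' < 1 →
      zs b (LvL hn P P' o 2 w w) ≤
        Λb ((Finset.range 1).image (cc hn o.1.1)) (cc hn o.1.1 2) (zs b w') (zs b w')) :
    ∀ᵐ g : ℝ, g ∈ V → b < g → RwH H hTop hF h o g → φ (SlL hn P P' o g) →
      2 < deriv (fun a => LvL hn P P' o 3 a a) g → SteepAt 2 (LvT hn PB o 3) g →
      StaAt (LvL hn P P' o 3) g := by
  have hb1 := N.b1
  have hEv : ∀ Sb del : ℝ, 1 ≤ Sb → 0 < del → EvTC (4 - 1) Sb del := fun Sb del h1 h2 =>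
    evTC (4 - 1) (by norm_num) Sb del h1 h2
  have hcq : ∀ᵐ g : ℝ, ContinuousAt (fun x => Λb ((Finset.range 1).image (cc hn o.1.1))
      (cc hn o.1.1 2) (zs b x) (zs b x)) g := by
    have h2 : Monotone fun x => Λb ((Finset.range 1).image (cc hn o.1.1)) (cc hn o.1.1 2)
        (zs b x) (zs b x) := fun x y h => Hb.lam.mono _ _ _ _ _ _ _ (Finset.Subset.refl _)
      (zs_mono hb1 h) (zs_mono hb1 h)
    filter_upwards [h2.countable_not_continuousAt.ae_notMem volume] with w hw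
    by_contra hcon
    exact hw hcon
  filter_upwards [N.gs H Hb hTop hF, N.der H Hb hTop hF, N.rwh H Hb hTop hF hh,
    ae_zs hb1 (hL hn hTop hF Sb Pb rb Pb' Λb PBb Hb o), ae_zs hb1 (Pool.Z4.ths_of Hb hTop hF),
    ae_zs hb1 (kd_ae Hb hTop hF), ae_zs hb1 (one_zero Hb hTop hF o),
    ae_zs hb1 (Hb.mac_of Hb.pble hTop hF hEv), ae_zs hb1 (two_one Hb hTop hF h o),
    (H.nk hTop hF).derT_ae (H.tgs.law ()) o, N.lv H Hb hTop hF, hcq, N.hO,
    N.hS, N.hP] with g a1 a2 a3 a4 a5 a6 a7 a8 a9 a10 a11 a12 a13 a14 a15 hgV hbg R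
      hφg s3 hst
  have hg : g ∈ Gs P r P' Λ o := R.rwd.mem
  have g0 := R.rwd.g0
  have g1 := R.rwd.g1
  have hgb := a1 hbg hg
  have Rb := a3 hbg R
  have hd := a2 hbg hg
  have s1 : 2 < deriv (fun a => LvL hn P P' o 1 a a) g := hφ.s1 _ hφg
  obtain ⟨s2, s2'⟩ : 1 < deriv (fun a => LvL hn P P' o 2 a a) g ∧
    deriv (fun a => LvL hn P P' o 2 a a) g ≤ 2 := hφ.s2 _ hφg
  have hOf : OffW b P Pb g := a13 hbg hg hgb
  have e3 : LvL hn P P' o 3 = P := lvL_last (hn := hn) (P := P) (P' := P') o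
  have e3b : LvL hn Pb Pb' o 3 = Pb := lvL_last (hn := hn) (P := Pb) (P' := Pb') o
  have t3 : LvT hn PB o 3 = PT hn PB o := LvT_top o
  have t3b : LvT hn PBb o 3 = PT hn PBb o := LvT_top o
  have hth : ∀ l < 3, ThS hn Pb Pb' PBb o l (zs b g) := by
    refine a5 o hgb fun i hi1 hi hl hs hst => ?_
    have hi3 : i < 3 := hi
    rw [← Pool.Z4.lvL_eq o (by omega)] at hs ⊢
    obtain rfl | rfl : i = 1 ∨ i = 2 := by omega
    · exact a9 Rb hl hs hst
    · rw [hd 2 (by norm_num)] at hs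
      linarith
  have hk1 : KdAt hn Pb Pb' PBb o 1 (zs b g) .thin ∨ KdAt hn Pb Pb' PBb o 1 (zs b g) .sta := by
    obtain ⟨k, hk⟩ := a6 o hgb 3 le_rfl hth 1 (by norm_num)
    cases k with
    | one =>
      have h5 : deriv (fun a => LvL hn Pb Pb' o 1 a a) (zs b g) = 1 := hk
      rw [hd 1 (by norm_num)] at h5
      linarith
    | thin => exact Or.inl hk
    | sta => exact Or.inr hk
  have hk2 : KdAt hn Pb Pb' PBb o 2 (zs b g) .thin ∨ KdAt hn Pb Pb' PBb o 2 (zs b g) .sta := by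
    obtain ⟨k, hk⟩ := a6 o hgb 3 le_rfl hth 2 (by norm_num)
    cases k with
    | one =>
      have h5 : deriv (fun a => LvL hn Pb Pb' o 2 a a) (zs b g) = 1 := hk
      rw [hd 2 (by norm_num)] at h5
      linarith
    | thin => exact Or.inl hk
    | sta => exact Or.inr hk
  have hφb : φ (SlL hn Pb Pb' o (zs b g)) :=
    hφ.cg _ _ (fun l hl => (hd l (by omega)).symm) hφg
  have hsb : 2 < deriv (fun a => LvL hn Pb Pb' o 3 a a) (zs b g) := by
    rw [hd 3 le_rfl]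
    exact s3
  have hstb : SteepAt 2 (LvT hn PBb o 3) (zs b g) := by
    rcases a8 o hgb hth with h6 | h6
    · exfalso
      rw [t3] at hst
      exact stp_sh N.b0 hb1 H Hb hbg hg (a15 hbg hg) hOf (a10 hg g0 g1).1 hst h6
    · rw [t3b]
      exact h6
  have h7 := hV g hgV hbg g1
  have h8 : zs b (LvL hn P P' o 2 g g) ≤
      Λb ((Finset.range 1).image (cc hn o.1.1)) (cc hn o.1.1 2) (zs b g) (zs b g) := by
    refine ge_of_tendsto (a12.tendsto.mono_left (nhdsWithin_le_nhds (s := Set.Ioi g))) ?_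
    filter_upwards [Ioo_mem_nhdsGT g1] with w hw
    exact h7 w hw.1 hw.2
  have h9 := a4 Rb hth (a7 hgb) hk1 hk2 hφb hsb hstb (by
    show LvL hn Pb Pb' o 2 (zs b g) (zs b g) ≤
      Λb ((Finset.range 1).image (cc hn o.1.1)) (cc hn o.1.1 2) (zs b g) (zs b g)
    rw [a11 hbg hg 2 (by norm_num)]
    exact h8)
  rw [e3b] at h9
  rw [e3]
  exact a14 hbg hg hgb h9

section

variable {hn : 2 ≤ 4} {S : PCl 4} {P : ℝ → ℝ → ℝ} {r : ℝ → ℝ}
  {P' : ℕ → List (Fin 4) × Fin 4 → ℝ → ℝ → ℝ} {Λ : Finset (Fin 4) → Fin 4 → ℝ → ℝ → ℝ}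
  {PB : ℕ → List (Fin 4) × Fin 4 → ℝ → ℝ → ℝ}

/-- **The supply of the second packages** for the kinds `one, thin, sta` and the slopes `φ`. -/
def SupT (φ : (ℕ → ℝ) → Prop) (H : PkT hn S P r P' Λ PB) (hTop : TopS 4) (hF : FZX (4 - 1))
    (h : ℝ) : Prop :=
  ∀ o : Od 4, ∃ (b : ℕ → ℝ) (V : ℕ → Set ℝ), (∀ i, (V i).Nonempty →
    ∃ (Sb : PCl 4) (Pb : ℝ → ℝ → ℝ) (rb : ℝ → ℝ) (Pb' : ℕ → List (Fin 4) × Fin 4 → ℝ → ℝ → ℝ)
      (Λb : Finset (Fin 4) → Fin 4 → ℝ → ℝ → ℝ) (PBb : ℕ → List (Fin 4) × Fin 4 → ℝ → ℝ → ℝ),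
      PkT hn Sb Pb rb Pb' Λb PBb ∧ ShN hn o (b i) P r P' Λ Pb rb Pb' Λb ∧
      ∀ w ∈ V i, b i < w → w < 1 → ∀ w' : ℝ, w < w' → w' < 1 →
        zs (b i) (LvL hn P P' o 2 w w) ≤
          Λb ((Finset.range 1).image (cc hn o.1.1)) (cc hn o.1.1 2) (zs (b i) w')
            (zs (b i) w')) ∧
    ∀ᵐ g : ℝ, RwH H hTop hF h o g → (∀ l < 3, ThS hn P P' PB o l g) →
      KdAt hn P P' PB o 0 g .one → KdAt hn P P' PB o 1 g .thin → KdAt hn P P' PB o 2 g .sta →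
      φ (SlL hn P P' o g) → 2 < deriv (fun a => LvL hn P P' o 3 a a) g →
      SteepAt 2 (LvT hn PB o 3) g → ¬ TwA hn P P' Λ 1 o g → ∃ i, g ∈ V i ∧ b i < g

/-- **The cell** `one, thin, sta` of one class, for the slopes `φ`. -/
theorem cellX_ts {h : ℝ} {φ : (ℕ → ℝ) → Prop} (hφ : SlT φ) (hh : 0 ≤ h) (hL : LeafTA φ h)
    (H : PkT hn S P r P' Λ PB) (hTop : TopS 4) (hF : FZX (4 - 1)) (hS : SupT φ H hTop hF h) :
    CellX H hTop hF h (fun o g => φ (SlL hn P P' o g)) [.one, .thin, .sta] := by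
  intro o
  obtain ⟨b, V, hV, hcov⟩ := hS o
  have h1 : ∀ᵐ g : ℝ, ∀ i, g ∈ V i → b i < g → RwH H hTop hF h o g → φ (SlL hn P P' o g) →
      2 < deriv (fun a => LvL hn P P' o 3 a a) g → SteepAt 2 (LvT hn PB o 3) g →
      StaAt (LvL hn P P' o 3) g := by
    refine ae_all_iff.2 fun i => ?_
    by_cases hi : (V i).Nonempty
    · obtain ⟨Sb, Pb, rb, Pb', Λb, PBb, Hb, N, hd⟩ := hV i hi
      exact she_pk2 hφ hh hL N H Hb hTop hF hd
    · exact Eventually.of_forall fun g hg => absurd ⟨g, hg⟩ hi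
  filter_upwards [h1, hcov, hL hn hTop hF S P r P' Λ PB H o] with g a1 a2 a3 R hφg hth hkd hs hst
  have k0 : KdAt hn P P' PB o 0 g .one := hkd 0 (by norm_num)
  have k1 : KdAt hn P P' PB o 1 g .thin := hkd 1 (by norm_num)
  have k2 : KdAt hn P P' PB o 2 g .sta := hkd 2 (by norm_num)
  have hth' : ∀ l < 3, ThS hn P P' PB o l g := hth
  have hs' : 2 < deriv (fun a => LvL hn P P' o 3 a a) g := hs
  have hst' : SteepAt 2 (LvT hn PB o 3) g := hst
  show StaAt (LvL hn P P' o 3) g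
  by_cases h2a : TwA hn P P' Λ 1 o g
  · exact a3 R hth' k0 (Or.inl k1) (Or.inr k2) hφg hs' hst' h2a
  · obtain ⟨i, hi, hbi⟩ := a2 R hth' k0 k1 k2 hφg hs' hst' h2a
    exact a1 i hi hbi R hφg hs' hst'

end

/-- **The supply of the second packages** for the kinds `one, thin, sta`, all classes. -/
def LSheT (φ : (ℕ → ℝ) → Prop) : Prop := (∀ k, 2 ≤ k → k < 4 → Ext0 k) →
  Tol fun η => AllC 4 η fun H hTop hF h => SupT φ H hTop hF h

/-- **The leaf**, all classes, from the cells: `one, thin, sta` only at the windows where the swapped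
list exists. -/
theorem leafTA_of {φ : (ℕ → ℝ) → Prop} (hφ : SlT φ) (hR : LCellR 4 1 φ [Kd.one, Kd.thin, Kd.sta])
    (hss : LCellA 4 [Kd.one, Kd.sta, Kd.sta]) : (∀ k, 2 ≤ k → k < 4 → Ext0 k) →
    Tol fun η => AllC 4 η fun H hTop hF h => LeafT φ H hTop hF h := fun hi => by
  refine ((hR hi).and ((hss hi).and ((Pool.D2N.lCellA_ott hi).and (lS_st hi)))).mono fun η hη => ?_
  obtain ⟨h1, h2, h3, h4⟩ := hη
  intro hn hZ hF hTop D hD hD1 hE S P r P' Λ PB H o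
  have hlaw := H.tgs.law ()
  have hL : Law (PT hn PB o) := (H.nk hTop hF).hPT o
  filter_upwards [h1 hn hZ hF hTop D hD hD1 hE S P r P' Λ PB H o,
    h2 hn hZ hF hTop D hD hD1 hE S P r P' Λ PB H o,
    h3 hn hZ hF hTop D hD hD1 hE S P r P' Λ PB H o,
    h4 hn hZ hF hTop D hD hD1 hE S P r P' Λ PB H o, mac_steep hL] with g a1 a2 a3 a4 a5 R
      hth k0 k1 k2 hφg hs hst hTw
  have hkd : ∀ k₁ k₂ : Kd, KdAt hn P P' PB o 1 g k₁ → KdAt hn P P' PB o 2 g k₂ →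
      ∀ (l : ℕ) (hl : l < [Kd.one, k₁, k₂].length),
        KdAt hn P P' PB o l g [Kd.one, k₁, k₂][l] := by
    intro k₁ k₂ e1 e2 l hl
    have hl3 : l < 3 := hl
    obtain rfl | rfl | rfl : l = 0 ∨ l = 1 ∨ l = 2 := by omega
    · exact k0
    · exact e1
    · exact e2
  rcases k1 with k1 | k1
  · rcases k2 with k2 | k2
    · exact a3 R hth (hkd _ _ k1 k2) hs hst
    · exact a1 R ⟨hφg, hTw⟩ hth (hkd _ _ k1 k2) hs hst
  · rcases k2 with k2 | k2
    · by_cases hsta : StaAt (LvL hn P P' o 3) g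
      · exact hsta
      have e3 : LvL hn P P' o 3 = P := lvL_last (hn := hn) (P := P) (P' := P') o
      have t3 : LvT hn PB o 3 = PT hn PB o := LvT_top o
      have g0 := R.rwd.g0
      have g1 := R.rwd.g1
      have hst' := hst
      rw [t3] at hst'
      have hs' := hs
      rw [e3] at hs' hsta
      have hlt : PT hn PB o g g < 1 :=
        lt_of_le_of_lt (H.le o g g g0 le_rfl g1.le) R.rwd.val
      exact a4 R ⟨Or.inl ⟨a5 g0 g1 hlt hst', hst', hs', hsta⟩, Or.inl (hφ.s1 _ hφg)⟩ hth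
        (hkd _ _ k1 k2) hs hst
    · exact a2 R hth (hkd _ _ k1 k2) hs hst

/-- **The cell** `one, thin, sta`, the place 1 faster than the place 2, from its cell at the windows
where the swapped list exists and the supply of the second packages. -/
theorem lCellS_ts {φ : (ℕ → ℝ) → Prop} (hφ : SlT φ) (hR : LCellR 4 1 φ [Kd.one, Kd.thin, Kd.sta])
    (hss : LCellA 4 [Kd.one, Kd.sta, Kd.sta]) (hS : LSheT φ) :
    LCellS 4 φ [Kd.one, Kd.thin, Kd.sta] := fun hi => by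
  refine (((leafTA_of hφ hR hss hi).and (hS hi)).and (Tol.le (1 / 2) (by norm_num))).mono
    fun η hη => ?_
  obtain ⟨⟨h1, h2⟩, h3⟩ := hη
  intro hn hZ hF hTop D hD hD1 hE S P r P' Λ PB H
  have h4 := (h3 D hD).2
  refine (cellX_ts hφ (mul_nonneg (by linarith) hD.le)
    (fun hn' hTop' hF' S P r P' Λ PB H => h1 hn' hZ hF' hTop' D hD hD1 hE S P r P' Λ PB H)
    H hTop hF (h2 hn hZ hF hTop D hD hD1 hE S P r P' Λ PB H)).mono fun o g hx => hx.2

end Pool.SHE3
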